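import Mathlib

/-!
Geometric permutations of plane transversals to separated families of stubby sets in three-space:
the definitions.
-/

namespace Pool.Agent.MP_2c58a9_co

/-- Euclidean three-space. -/
abbrev E3 : Type := EuclideanSpace ℝ (Fin 3)

/-- `a` is `ρ`-stubby: it contains a ball of radius `1` and lies in a ball of radius `ρ`. -/
def Stubby (ρ : ℝ) (a : Set E3) : Prop :=
  (∃ c : E3, Metric.closedBall c 1 ⊆ a) ∧ ∃ c : E3, a ⊆ Metric.closedBall c ρ

/-- The family is `1`-separated: no three of its members are met by a common line. -/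
def Separated {n : ℕ} (a : Fin n → Set E3) : Prop :=
  ∀ s : Finset (Fin n), s.card = 3 →
    ¬ ∃ L : AffineSubspace ℝ E3, Module.finrank ℝ L.direction = 1 ∧
      ∀ i ∈ s, ((L : Set E3) ∩ a i).Nonempty

/-- Order type of the points `p i` of a plane oriented by the normal vector `u`: the sign of the
orientation `det (p j - p i, p k - p i, u)` of every triple. -/
noncomputable def orderType {n : ℕ} (u : E3) (p : Fin n → E3) :
    Fin n → Fin n → Fin n → SignType :=
  fun i j k => SignType.sign
    (Matrix.det (Matrix.of ![(p j - p i).ofLp, (p k - p i).ofLp, u.ofLp]))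

/-- The geometric permutations of the family `a`: for every plane `{x | ⟪u, x⟫ = t}` meeting all
members, at points `p i`, the unordered pair of order types given by its two orientations. -/
def geomPerms {n : ℕ} (a : Fin n → Set E3) : Set (Sym2 (Fin n → Fin n → Fin n → SignType)) :=
  {P | ∃ (u : E3) (t : ℝ) (p : Fin n → E3), u ≠ 0 ∧ (∀ i, p i ∈ a i ∧ inner ℝ u (p i) = t) ∧
    P = Sym2.mk (orderType u p) (orderType (-u) p)}

end Pool.Agent.MP_2c58a9_co
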