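import Mathlib
import Pool.Agent.MP_2c58a9_co.Defs

/-!
The unit-ball construction of the hand-in UnitBalls (helper52), copied unchanged, with the count
kept explicit: `m + 2` balls have at least `m` geometric permutations.
-/

namespace Pool.Agent.MP_2c58a9_co

/-! ### The construction -/

/-- third coordinate of the centre of the far ball number `l` -/
noncomputable def zz (h : ℝ) (l : ℝ) : ℝ := 4 * h * (4 * l ^ 3 - 1) - 1

/-- first coordinates of the centres -/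
noncomputable def cx (h : ℝ) : ℕ → ℝ
  | 0 => -2
  | 1 => 2
  | (k + 2) => (16 / h * ((k : ℝ) + 1) + 3 * zz h ((k : ℝ) + 1) - 5) / 4

/-- second coordinates of the centres -/
noncomputable def cy : ℕ → ℝ
  | 0 => 0
  | 1 => 0
  | (k + 2) => -8 * ((k : ℝ) + 1) ^ 2

/-- third coordinates of the centres -/
noncomputable def cz (h : ℝ) : ℕ → ℝ
  | 0 => -1
  | 1 => 1
  | (k + 2) => zz h ((k : ℝ) + 1)

/-- level of a ball -/
noncomputable def lv : ℕ → ℝ
  | 0 => 0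
  | 1 => 0
  | (k + 2) => (k : ℝ) + 1

/-- centres -/
noncomputable def ctr (h : ℝ) (i : ℕ) : E3 := !₂[cx h i, cy i, cz h i]

/-- normal vectors -/
noncomputable def nv (s : ℝ) : E3 := !₂[4 * s ^ 2, 8 * s, 4 - 3 * s ^ 2]

lemma mem_ball_iff (c q : E3) : q ∈ Metric.closedBall c 1 ↔
    (q 0 - c 0) ^ 2 + (q 1 - c 1) ^ 2 + (q 2 - c 2) ^ 2 ≤ 1 := by
  rw [Metric.mem_closedBall, EuclideanSpace.dist_eq, Real.sqrt_le_one]
  simp [Fin.sum_univ_three, Real.dist_eq, sq_abs]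

lemma cs3 {a b c x y z R : ℝ} (hR : 0 < R) (hn : a ^ 2 + b ^ 2 + c ^ 2 = R ^ 2)
    (he : x ^ 2 + y ^ 2 + z ^ 2 ≤ 1) : |a * x + b * y + c * z| ≤ R := by
  apply abs_le_of_sq_le_sq _ hR.le
  have h1 : (a * x + b * y + c * z) ^ 2 ≤ (a ^ 2 + b ^ 2 + c ^ 2) * (x ^ 2 + y ^ 2 + z ^ 2) := by
    nlinarith [sq_nonneg (a * y - b * x), sq_nonneg (a * z - c * x), sq_nonneg (b * z - c * y)]
  have h2 : (a ^ 2 + b ^ 2 + c ^ 2) * (x ^ 2 + y ^ 2 + z ^ 2) ≤ R ^ 2 * 1 := by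
    rw [hn]; exact mul_le_mul_of_nonneg_left he (by positivity)
  linarith

lemma coord_bounds {x y z : ℝ} (he : x ^ 2 + y ^ 2 + z ^ 2 ≤ 1) :
    (-1 ≤ x ∧ x ≤ 1) ∧ (-1 ≤ y ∧ y ≤ 1) := by
  refine ⟨abs_le.1 (abs_le_of_sq_le_sq ?_ zero_le_one), abs_le.1 (abs_le_of_sq_le_sq ?_ zero_le_one)⟩
  · nlinarith [sq_nonneg y, sq_nonneg z]
  · nlinarith [sq_nonneg x, sq_nonneg z]

lemma key_est {h M w x y X l : ℝ} (hh : 0 < h) (w0 : 0 ≤ w) (wM : w ≤ M) (hs : h * M ≤ 1 / 18)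
    (p1 : -1 ≤ x - X) (p2 : x - X ≤ 1) (p3 : -1 ≤ y - -8 * l ^ 2) (p4 : y - -8 * l ^ 2 ≤ 1)
    (p5 : |4 * h * X - 16 * l| ≤ 8 * h) :
    |(-8 * (h * w)) * x + (-2) * y - 16 * ((l - w) ^ 2 - w ^ 2)| ≤ 4 := by
  have hw : h * w ≤ 1 / 18 := le_trans (mul_le_mul_of_nonneg_left wM hh.le) hs
  have hw0 : 0 ≤ h * w := by positivity
  have e : (-8 * (h * w)) * x + (-2) * y - 16 * ((l - w) ^ 2 - w ^ 2)
      = -8 * ((h * w) * (x - X)) - 2 * (y - -8 * l ^ 2) - 2 * (w * (4 * h * X - 16 * l)) := by ring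
  obtain ⟨p5, p6⟩ := abs_le.1 p5
  have a1 : (h * w) * (x - X) ≤ h * w := by nlinarith
  have a2 : -(h * w) ≤ (h * w) * (x - X) := by nlinarith
  have a3 : w * (4 * h * X - 16 * l) ≤ 8 * (h * w) := by nlinarith
  have a4 : -(8 * (h * w)) ≤ w * (4 * h * X - 16 * l) := by nlinarith
  rw [e, abs_le]
  constructor <;> linarith

lemma line_identity (L : AffineSubspace ℝ E3) (hL : Module.finrank ℝ L.direction = 1)
    {q1 q2 q3 : E3} (h1 : q1 ∈ L) (h2 : q2 ∈ L) (h3 : q3 ∈ L) (a b c : ℝ) :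
    ((a * q2 0 + b * q2 1 + c * q2 2) - (a * q1 0 + b * q1 1 + c * q1 2)) * (q3 0 - q1 0) =
    ((a * q3 0 + b * q3 1 + c * q3 2) - (a * q1 0 + b * q1 1 + c * q1 2)) * (q2 0 - q1 0) := by
  obtain ⟨v, hv⟩ := (finrank_le_one_iff (K := ℝ) (V := L.direction)).1 hL.le
  obtain ⟨s, hs⟩ := hv ⟨q2 -ᵥ q1, AffineSubspace.vsub_mem_direction h2 h1⟩
  obtain ⟨t, ht⟩ := hv ⟨q3 -ᵥ q1, AffineSubspace.vsub_mem_direction h3 h1⟩
  have hs' : ∀ i, q2 i = q1 i + s * (v : E3) i := by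
    intro i
    have := congrArg (fun w : L.direction => (w : E3) i) hs
    simp at this
    linarith
  have ht' : ∀ i, q3 i = q1 i + t * (v : E3) i := by
    intro i
    have := congrArg (fun w : L.direction => (w : E3) i) ht
    simp at this
    linarith
  rw [hs' 0, hs' 1, hs' 2, ht' 0, ht' 1, ht' 2]
  ring

lemma no_line {x1 x2 x3 f1 f2 f3 : ℝ} (h12 : x1 < x2) (h23 : x2 < x3) (hf1 : f2 ≤ f1)
    (hf3 : f2 < f3) (h : (f2 - f1) * (x3 - x1) = (f3 - f1) * (x2 - x1)) : False := by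
  have e1 : 0 ≤ (f1 - f2) * (x3 - x2) := mul_nonneg (by linarith) (by linarith)
  have e2 : 0 < (f3 - f2) * (x2 - x1) := mul_pos (by linarith) (by linarith)
  nlinarith

section params

variable {h M : ℝ} (hh : 0 < h) (hM : 1 ≤ M) (hb : 2 * h * M * (2 * M + 1) ^ 2 ≤ 1)
include hh hM hb

lemma hM_small : h * M ≤ 1 / 18 := by
  have h1 : (9 : ℝ) ≤ (2 * M + 1) ^ 2 := by nlinarith
  have h2 : 0 < h * M := by positivity
  nlinarith

lemma h_small : h ≤ 1 / 18 := by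
  have := hM_small hh hM hb
  nlinarith

lemma zz_bounds {l : ℝ} (hl1 : 1 ≤ l) (hl : l ≤ M) : -1 ≤ zz h l ∧ zz h l ≤ 1 := by
  unfold zz
  have h3 : 1 ≤ l ^ 3 := one_le_pow₀ hl1
  have h4 : l ^ 3 ≤ M ^ 3 := pow_le_pow_left₀ (by linarith) hl 3
  constructor
  · nlinarith
  · have : 4 * l ^ 3 - 1 ≤ M * (2 * M + 1) ^ 2 := by nlinarith
    nlinarith

lemma cx_lv {i : ℕ} (hi : lv i ≤ M) : |4 * h * cx h i - 16 * lv i| ≤ 8 * h := by
  match i, hi with
  | 0, _ => simp only [cx, lv]; rw [abs_le]; constructor <;> linarith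
  | 1, _ => simp only [cx, lv]; rw [abs_le]; constructor <;> linarith
  | (k + 2), hi =>
    simp only [cx, lv] at hi ⊢
    have hk : (1 : ℝ) ≤ (k : ℝ) + 1 := by have := (Nat.cast_nonneg k : (0 : ℝ) ≤ k); linarith
    obtain ⟨z1, z2⟩ := zz_bounds hh hM hb hk hi
    have : 4 * h * ((16 / h * ((k : ℝ) + 1) + 3 * zz h ((k : ℝ) + 1) - 5) / 4) - 16 * ((k : ℝ) + 1)
        = h * (3 * zz h ((k : ℝ) + 1) - 5) := by field_simp; ring
    rw [this, abs_le]
    constructor <;> nlinarith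

omit hh hM hb in
lemma cy_lv (i : ℕ) : cy i = -8 * lv i ^ 2 := by
  match i with
  | 0 => simp [cy, lv]
  | 1 => simp [cy, lv]
  | (k + 2) => simp [cy, lv]

omit hh hM hb in
lemma lv_nonneg (i : ℕ) : 0 ≤ lv i := by
  match i with
  | 0 => simp [lv]
  | 1 => simp [lv]
  | (k + 2) => simp only [lv]; positivity

omit hh hM hb in
lemma lv_lt {i j : ℕ} (hij : i < j) (hj : 2 ≤ j) : lv i + 1 ≤ lv j := by
  match i, j, hij, hj with
  | 0, (k + 2), _, _ => simp [lv]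
  | 1, (k + 2), _, _ => simp [lv]
  | (l + 2), (k + 2), hij, _ =>
    simp only [lv]
    have : l + 1 ≤ k := by omega
    have : ((l + 1 : ℕ) : ℝ) ≤ k := by exact_mod_cast this
    push_cast at this
    linarith

omit hh hM hb in
lemma lv_le {m i : ℕ} (hi : i < m + 2) : lv i ≤ m := by
  match i, hi with
  | 0, _ => simp [lv]
  | 1, _ => simp [lv]
  | (k + 2), hi =>
    simp only [lv]
    have : k + 1 ≤ m := by omega
    exact_mod_cast this

lemma cx_lt {i j : ℕ} (hij : i < j) (hi : lv i ≤ M) (hj : lv j ≤ M) : cx h i + 2 < cx h j := by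
  by_cases h2 : 2 ≤ j
  · have a1 := abs_le.1 (cx_lv hh hM hb hi)
    have a2 := abs_le.1 (cx_lv hh hM hb hj)
    have a3 := lv_lt hij h2
    have a4 := h_small hh hM hb
    have : 4 * h * (cx h i + 2) < 4 * h * cx h j := by nlinarith
    exact lt_of_mul_lt_mul_left this (by positivity)
  · have hj1 : j = 1 := by omega
    have hi0 : i = 0 := by omega
    subst hj1 hi0
    simp only [cx]; norm_num

omit hM hb in
/-- value of the normal functional at a far centre -/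
lemma nv_far (s : ℝ) (k : ℕ) :
    4 * s ^ 2 * cx h (k + 2) + 8 * s * cy (k + 2) + (4 - 3 * s ^ 2) * cz h (k + 2) + (4 + 5 * s ^ 2)
      = 16 / h * ((k : ℝ) + 1) * (s - 2 * ((k : ℝ) + 1) * h) ^ 2 - 16 * h := by
  simp only [cx, cy, cz, zz]
  field_simp
  ring

/-- three balls in order are not met by a line -/
lemma sep_triple {i j k : ℕ} (hij : i < j) (hjk : j < k) (hi : lv i ≤ M) (hj : lv j ≤ M)
    (hk : lv k ≤ M) (L : AffineSubspace ℝ E3) (hL : Module.finrank ℝ L.direction = 1)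
    {q1 q2 q3 : E3} (h1 : q1 ∈ L) (h2 : q2 ∈ L) (h3 : q3 ∈ L)
    (b1 : q1 ∈ Metric.closedBall (ctr h i) 1) (b2 : q2 ∈ Metric.closedBall (ctr h j) 1)
    (b3 : q3 ∈ Metric.closedBall (ctr h k) 1) : False := by
  rw [mem_ball_iff] at b1 b2 b3
  simp only [ctr, Matrix.cons_val_zero, Matrix.cons_val_one, Matrix.cons_val] at b1 b2 b3
  obtain ⟨x1, y1⟩ := coord_bounds b1
  obtain ⟨x2, y2⟩ := coord_bounds b2
  obtain ⟨x3, y3⟩ := coord_bounds b3
  have c12 := cx_lt hh hM hb hij hi hj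
  have c23 := cx_lt hh hM hb hjk hj hk
  have o12 : q1 0 < q2 0 := by linarith
  have o23 : q2 0 < q3 0 := by linarith
  by_cases hj2 : 2 ≤ j
  · -- generic triples
    have l12 := lv_lt hij hj2
    have l23 := lv_lt hjk (by omega)
    have hs := hM_small hh hM hb
    have j0 := lv_nonneg j
    rw [cy_lv] at y1 y2 y3
    have k1 := abs_le.1 (key_est hh j0 hj hs x1.1 x1.2 y1.1 y1.2 (cx_lv hh hM hb hi))
    have k2 := abs_le.1 (key_est hh j0 hj hs x2.1 x2.2 y2.1 y2.2 (cx_lv hh hM hb hj))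
    have k3 := abs_le.1 (key_est hh j0 hj hs x3.1 x3.2 y3.1 y3.2 (cx_lv hh hM hb hk))
    have s1 : 1 ≤ (lv i - lv j) ^ 2 := by
      have : 1 ≤ lv j - lv i := by linarith
      calc (1 : ℝ) ≤ (lv j - lv i) ^ 2 := one_le_pow₀ this
        _ = _ := by ring
    have s3 : 1 ≤ (lv k - lv j) ^ 2 := one_le_pow₀ (by linarith)
    have s2 : (lv j - lv j) ^ 2 = 0 := by ring
    refine no_line o12 o23 ?_ ?_ (line_identity L hL h1 h2 h3 (-8 * (h * lv j)) (-2) 0)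
    · linarith [k1.1, k2.2]
    · linarith [k3.1, k2.2]
  · -- the special triples
    have hj1 : j = 1 := by omega
    have hi0 : i = 0 := by omega
    obtain ⟨l, rfl⟩ : ∃ l, k = l + 2 := ⟨k - 2, by omega⟩
    subst hj1 hi0
    set s : ℝ := 2 * ((l : ℝ) + 1) * h with hs
    have hR : (0 : ℝ) < 4 + 5 * s ^ 2 := by positivity
    have hn : (4 * s ^ 2) ^ 2 + (8 * s) ^ 2 + (4 - 3 * s ^ 2) ^ 2 = (4 + 5 * s ^ 2) ^ 2 := by ring
    have d1 := abs_le.1 (cs3 hR hn b1)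
    have d2 := abs_le.1 (cs3 hR hn b2)
    have d3 := abs_le.1 (cs3 hR hn b3)
    have f3 := nv_far hh s l
    rw [← hs, sub_self] at f3
    simp only [cx, cy, cz] at d1 d2
    refine no_line o12 o23 ?_ ?_
      (line_identity L hL h1 h2 h3 (-(4 * s ^ 2)) (-(8 * s)) (-(4 - 3 * s ^ 2)))
    · linarith [d1.2, d2.1]
    · linarith [d3.2, d2.1]

/-- the sample planes meet all balls -/
lemma transversal {r : ℝ} (hr0 : 0 ≤ r) (hr : r ≤ M) (hint : ∀ k : ℕ, 1 ≤ (2 * r + 1 - 2 * ((k : ℝ) + 1)) ^ 2)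
    {i : ℕ} (hi : lv i ≤ M) :
    |4 * ((2 * r + 1) * h) ^ 2 * cx h i + 8 * ((2 * r + 1) * h) * cy i
      + (4 - 3 * ((2 * r + 1) * h) ^ 2) * cz h i| ≤ 4 + 5 * ((2 * r + 1) * h) ^ 2 := by
  match i, hi with
  | 0, _ => simp only [cx, cy, cz]; rw [abs_le]; constructor <;> nlinarith
  | 1, _ => simp only [cx, cy, cz]; rw [abs_le]; constructor <;> nlinarith
  | (k + 2), hi =>
    have f := nv_far hh ((2 * r + 1) * h) k
    have e : 16 / h * ((k : ℝ) + 1) * ((2 * r + 1) * h - 2 * ((k : ℝ) + 1) * h) ^ 2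
        = 16 * h * ((k : ℝ) + 1) * (2 * r + 1 - 2 * ((k : ℝ) + 1)) ^ 2 := by
      field_simp
    rw [e] at f
    simp only [lv] at hi
    have hk : (1 : ℝ) ≤ (k : ℝ) + 1 := by have := (Nat.cast_nonneg k : (0 : ℝ) ≤ k); linarith
    have u1 := hint k
    have u2 : (2 * r + 1 - 2 * ((k : ℝ) + 1)) ^ 2 ≤ (2 * M + 1) ^ 2 := by
      apply sq_le_sq'
      · linarith
      · linarith
    have u3 : 16 * h * ((k : ℝ) + 1) * (2 * r + 1 - 2 * ((k : ℝ) + 1)) ^ 2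
        ≤ 16 * h * M * (2 * M + 1) ^ 2 := by gcongr
    have u4 : 16 * h * 1 * 1 ≤ 16 * h * ((k : ℝ) + 1) * (2 * r + 1 - 2 * ((k : ℝ) + 1)) ^ 2 := by
      gcongr
    rw [abs_le]
    constructor <;> nlinarith [sq_nonneg ((2 * r + 1) * h)]

end params

/-- foot points on the plane with normal `nv s` through the origin -/
noncomputable def foot (h s : ℝ) (i : ℕ) : E3 :=
  ctr h i - ((4 * s ^ 2 * cx h i + 8 * s * cy i + (4 - 3 * s ^ 2) * cz h i) / (4 + 5 * s ^ 2) ^ 2)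
    • nv s

lemma foot_inner (h s : ℝ) (i : ℕ) : inner ℝ (nv s) (foot h s i) = 0 := by
  have hR : (4 + 5 * s ^ 2) ≠ 0 := by positivity
  simp only [foot, ctr, nv, PiLp.inner_apply, Fin.sum_univ_three]
  simp
  field_simp
  ring

lemma foot_mem (h s : ℝ) (i : ℕ)
    (hi : |4 * s ^ 2 * cx h i + 8 * s * cy i + (4 - 3 * s ^ 2) * cz h i| ≤ 4 + 5 * s ^ 2) :
    foot h s i ∈ Metric.closedBall (ctr h i) 1 := by
  have hR : 0 < (4 + 5 * s ^ 2) := by positivity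
  rw [mem_ball_iff]
  set w := 4 * s ^ 2 * cx h i + 8 * s * cy i + (4 - 3 * s ^ 2) * cz h i with hw
  have hw2 : w ^ 2 ≤ (4 + 5 * s ^ 2) ^ 2 := by
    rw [← sq_abs w]; exact pow_le_pow_left₀ (abs_nonneg _) hi 2
  have : (foot h s i 0 - ctr h i 0) ^ 2 + (foot h s i 1 - ctr h i 1) ^ 2
      + (foot h s i 2 - ctr h i 2) ^ 2 = w ^ 2 / (4 + 5 * s ^ 2) ^ 2 := by
    simp only [foot, ← hw, nv]
    simp
    field_simp
    ring
  rw [this, div_le_one (by positivity)]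
  exact hw2

lemma det_special {h : ℝ} (hh : 0 < h) (s e : ℝ) (k : ℕ) :
    Matrix.det (Matrix.of ![(foot h s 1 - foot h s 0).ofLp, (foot h s (k + 2) - foot h s 0).ofLp,
      (e • nv s).ofLp]) =
    e * (2 * (16 / h * ((k : ℝ) + 1) * (s - 2 * ((k : ℝ) + 1) * h)
      * (2 + 5 / 2 * s * (2 * ((k : ℝ) + 1) * h)) + 5 / 2 * s * (16 * h))) := by
  have hR : (4 + 5 * s ^ 2) ≠ 0 := by positivity
  rw [Matrix.det_fin_three]
  simp [foot, ctr, nv, cx, cy, cz, zz]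
  field_simp
  ring

lemma sign_pos_case {h : ℝ} (hh : 0 < h) {r k : ℕ} (hk : k + 1 ≤ r) :
    0 < 2 * (16 / h * ((k : ℝ) + 1) * ((2 * (r : ℝ) + 1) * h - 2 * ((k : ℝ) + 1) * h)
      * (2 + 5 / 2 * ((2 * (r : ℝ) + 1) * h) * (2 * ((k : ℝ) + 1) * h))
        + 5 / 2 * ((2 * (r : ℝ) + 1) * h) * (16 * h)) := by
  have hk' : (k : ℝ) + 1 ≤ r := by exact_mod_cast hk
  have : 0 < (2 * (r : ℝ) + 1) * h - 2 * ((k : ℝ) + 1) * h := by nlinarith
  positivity

lemma sign_neg_case {h : ℝ} (hh : 0 < h) {r k : ℕ} (hk : r ≤ k) (hs : h * ((k : ℝ) + 1) ≤ 1 / 18) :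
    2 * (16 / h * ((k : ℝ) + 1) * ((2 * (r : ℝ) + 1) * h - 2 * ((k : ℝ) + 1) * h)
      * (2 + 5 / 2 * ((2 * (r : ℝ) + 1) * h) * (2 * ((k : ℝ) + 1) * h))
        + 5 / 2 * ((2 * (r : ℝ) + 1) * h) * (16 * h)) < 0 := by
  have hk' : (r : ℝ) ≤ k := by exact_mod_cast hk
  have k0 : (0 : ℝ) ≤ k := Nat.cast_nonneg k
  have r0 : (0 : ℝ) ≤ r := Nat.cast_nonneg r
  have e : 16 / h * ((k : ℝ) + 1) * ((2 * (r : ℝ) + 1) * h - 2 * ((k : ℝ) + 1) * h)
      = -(16 * ((k : ℝ) + 1) * (2 * ((k : ℝ) + 1) - (2 * r + 1))) := by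
    field_simp
    ring
  rw [e]
  have a1 : 16 * 1 * 1 ≤ 16 * ((k : ℝ) + 1) * (2 * ((k : ℝ) + 1) - (2 * r + 1)) := by
    gcongr <;> linarith
  have a2 : (2 : ℝ) ≤ 2 + 5 / 2 * ((2 * (r : ℝ) + 1) * h) * (2 * ((k : ℝ) + 1) * h) := by
    have : 0 ≤ 5 / 2 * ((2 * (r : ℝ) + 1) * h) * (2 * ((k : ℝ) + 1) * h) := by positivity
    linarith
  have a3 : 16 * 1 * 1 * 2 ≤ 16 * ((k : ℝ) + 1) * (2 * ((k : ℝ) + 1) - (2 * r + 1)) *
      (2 + 5 / 2 * ((2 * (r : ℝ) + 1) * h) * (2 * ((k : ℝ) + 1) * h)) := by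
    gcongr
  have a4 : (2 * (r : ℝ) + 1) * h ≤ 1 := by nlinarith
  have a5 : h ≤ 1 / 18 := by nlinarith
  have a6 : (2 * (r : ℝ) + 1) * h * h ≤ 1 * (1 / 18) := by gcongr
  nlinarith

theorem lower (m : ℕ) (hm : 1 ≤ m) : ∃ c : Fin (m + 2) → E3,
    Separated (fun i => Metric.closedBall (c i) 1) ∧
      m ≤ (geomPerms (fun i => Metric.closedBall (c i) 1)).ncard := by
  have hM : (1 : ℝ) ≤ (m : ℝ) := by exact_mod_cast hm
  set h : ℝ := 1 / (2 * (m : ℝ) * (2 * m + 1) ^ 2) with hh_def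
  have hh : 0 < h := by positivity
  have hb : 2 * h * (m : ℝ) * (2 * m + 1) ^ 2 ≤ 1 := by
    rw [hh_def]; apply le_of_eq; field_simp
  have hlv : ∀ i : Fin (m + 2), lv i ≤ m := fun i => lv_le i.2
  refine ⟨fun i => ctr h i, ?_, ?_⟩
  · rintro s hs ⟨L, hL, hLs⟩
    let e := s.orderEmbOfFin hs
    obtain ⟨q1, h1, b1⟩ := hLs (e 0) (s.orderEmbOfFin_mem hs 0)
    obtain ⟨q2, h2, b2⟩ := hLs (e 1) (s.orderEmbOfFin_mem hs 1)
    obtain ⟨q3, h3, b3⟩ := hLs (e 2) (s.orderEmbOfFin_mem hs 2)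
    have l01 : e 0 < e 1 := e.strictMono (by decide)
    have l12 : e 1 < e 2 := e.strictMono (by decide)
    exact sep_triple hh hM hb (i := e 0) (j := e 1) (k := e 2) l01 l12 (hlv _) (hlv _) (hlv _)
      L hL h1 h2 h3 b1 b2 b3
  · let sv : ℕ → ℝ := fun r => (2 * (r : ℝ) + 1) * h
    let ot : ℝ → ℕ → (Fin (m + 2) → Fin (m + 2) → Fin (m + 2) → SignType) :=
      fun e r => orderType (e • nv (sv r)) (fun i => foot h (sv r) i)
    let f : Fin m → Sym2 (Fin (m + 2) → Fin (m + 2) → Fin (m + 2) → SignType) :=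
      fun r => Sym2.mk (ot 1 (r + 1)) (ot (-1) (r + 1))
    have hval : ∀ (e : ℝ) (r k : ℕ) (hk : k + 2 < m + 2),
        ot e r ⟨0, by omega⟩ ⟨1, by omega⟩ ⟨k + 2, hk⟩ = SignType.sign (e *
          (2 * (16 / h * ((k : ℝ) + 1) * (sv r - 2 * ((k : ℝ) + 1) * h)
            * (2 + 5 / 2 * sv r * (2 * ((k : ℝ) + 1) * h)) + 5 / 2 * sv r * (16 * h)))) := by
      intro e r k hk
      simp only [ot, orderType]
      rw [det_special hh]
    have hsm : ∀ k : ℕ, k + 1 ≤ m → h * ((k : ℝ) + 1) ≤ 1 / 18 := by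
      intro k hk
      have : (k : ℝ) + 1 ≤ m := by exact_mod_cast hk
      exact le_trans (mul_le_mul_of_nonneg_left this hh.le) (hM_small hh hM hb)
    have hne : ∀ r r' : Fin m, r < r' → f r ≠ f r' := by
      intro r r' hlt he
      have hlt' : (r : ℕ) < r' := hlt
      have hr' := r'.2
      rcases Sym2.eq_iff.1 he with ⟨e1, -⟩ | ⟨e1, -⟩
      · have v1 := hval 1 (r + 1) (r + 1) (by omega)
        have v2 := hval 1 (r' + 1) (r + 1) (by omega)
        rw [e1, v2, one_mul, one_mul, sign_pos (sign_pos_case hh (by omega)),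
          sign_neg (sign_neg_case hh le_rfl (hsm _ (by omega)))] at v1
        exact absurd v1 (by decide)
      · have v1 := hval 1 (r + 1) 0 (by omega)
        have v2 := hval (-1) (r' + 1) 0 (by omega)
        rw [e1, v2, one_mul, neg_one_mul, Left.sign_neg, sign_pos (sign_pos_case hh (by omega)),
          sign_pos (sign_pos_case hh (by omega))] at v1
        exact absurd v1 (by decide)
    have hinj : Function.Injective f := by
      intro r r' he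
      rcases lt_trichotomy r r' with hlt | heq | hlt
      · exact absurd he (hne r r' hlt)
      · exact heq
      · exact absurd he.symm (hne r' r hlt)
    have hsub : Set.range f ⊆ geomPerms (fun i : Fin (m + 2) => Metric.closedBall (ctr h i) 1) := by
      rintro _ ⟨r, rfl⟩
      refine ⟨nv (sv (r + 1)), 0, fun i => foot h (sv (r + 1)) i, ?_, fun i => ⟨?_, foot_inner _ _ _⟩, ?_⟩
      · intro h0
        have h1 := congrArg (fun w : E3 => w 1) h0
        simp only [nv, sv] at h1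
        simp at h1
        rcases h1 with h1 | h1
        · have : (0 : ℝ) ≤ r := Nat.cast_nonneg _
          linarith
        · exact hh.ne' h1
      · apply foot_mem
        have hr : (((r : ℕ) + 1 : ℕ) : ℝ) ≤ m := by exact_mod_cast r.2
        refine transversal hh hM hb (Nat.cast_nonneg _) hr ?_ (hlv i)
        intro k
        have : (1 : ℤ) ≤ (2 * (((r : ℕ) + 1 : ℕ) : ℤ) + 1 - 2 * ((k : ℤ) + 1)) ^ 2 := by
          have : (2 * (((r : ℕ) + 1 : ℕ) : ℤ) + 1 - 2 * ((k : ℤ) + 1)) ≠ 0 := by omega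
          have := sq_pos_of_ne_zero this
          omega
        exact_mod_cast this
      · simp only [f, ot, one_smul, neg_smul]
    have hcard : (Set.range f).ncard = m := by
      rw [Set.ncard_range_of_injective hinj]; simp
    have := Set.ncard_le_ncard hsub (Set.toFinite _)
    rw [hcard] at this
    exact this

end Pool.Agent.MP_2c58a9_co
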