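import Mathlib
import Pool.Agent.MP_2c58a9_co.Defs

/-!
Linear upper bound, part 1: the orientation of a separated triple in a transversal plane is the
majority sign of three linear forms in the normal vector.
-/

namespace Pool.Agent.MP_2c58a9_co

open Metric

lemma inner_eq (u v : E3) : inner ℝ u v = u 0 * v 0 + u 1 * v 1 + u 2 * v 2 := by
  simp [PiLp.inner_apply, Fin.sum_univ_three]
  ring

def det3 (a b c : E3) : ℝ :=
  a 0 * (b 1 * c 2 - b 2 * c 1) - a 1 * (b 0 * c 2 - b 2 * c 0) + a 2 * (b 0 * c 1 - b 1 * c 0)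

lemma det_eq (a b c : E3) : Matrix.det (Matrix.of ![a.ofLp, b.ofLp, c.ofLp]) = det3 a b c := by
  rw [Matrix.det_fin_three]
  simp [det3]
  ring

lemma orderType_eq {n : ℕ} (u : E3) (p : Fin n → E3) (i j k : Fin n) :
    orderType u p i j k = SignType.sign (det3 (p j - p i) (p k - p i) u) := by
  rw [orderType, det_eq]

noncomputable def cr (a b : E3) : E3 :=
  !₂[a 1 * b 2 - a 2 * b 1, a 2 * b 0 - a 0 * b 2, a 0 * b 1 - a 1 * b 0]

lemma inner_cr (a b x : E3) : inner ℝ (cr a b) x = det3 a b x := by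
  rw [inner_eq]
  simp [cr, det3]
  ring

def NoLine {n : ℕ} (a : Fin n → Set E3) : Prop :=
  ∀ i j k, i ≠ j → i ≠ k → j ≠ k → ∀ p ∈ a i, ∀ q ∈ a j, ∀ r ∈ a k,
    ∀ (g : E3) (s s' : ℝ), g ≠ 0 → q = p + s • g → r = p + s' • g → False

lemma noLine_of_sep {n : ℕ} {a : Fin n → Set E3} (h : Separated a) : NoLine a := by
  intro i j k hij hik hjk p hp q hq r hr g s s' hg e1 e2
  refine h {i, j, k} (Finset.card_eq_three.2 ⟨i, j, k, hij, hik, hjk, rfl⟩)
    ⟨AffineSubspace.mk' p (Submodule.span ℝ {g}), ?_, ?_⟩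
  · rw [AffineSubspace.direction_mk']
    exact finrank_span_singleton hg
  · intro l hl
    simp only [Finset.mem_insert, Finset.mem_singleton] at hl
    rcases hl with rfl | rfl | rfl
    · exact ⟨p, AffineSubspace.self_mem_mk' _ _, hp⟩
    · refine ⟨q, ?_, hq⟩
      rw [SetLike.mem_coe, AffineSubspace.mem_mk', e1, vsub_eq_sub, add_sub_cancel_left]
      exact Submodule.smul_mem _ _ (Submodule.mem_span_singleton_self g)
    · refine ⟨r, ?_, hr⟩
      rw [SetLike.mem_coe, AffineSubspace.mem_mk', e2, vsub_eq_sub, add_sub_cancel_left]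
      exact Submodule.smul_mem _ _ (Submodule.mem_span_singleton_self g)

lemma exists_ne_zero : ∃ g : E3, g ≠ 0 := by
  refine ⟨!₂[1, 0, 0], fun h => ?_⟩
  have := congrArg (fun w : E3 => w 0) h
  simp at this

lemma NoLine.not_seg {n : ℕ} {a : Fin n → Set E3} (h : NoLine a) {i j k : Fin n} (hij : i ≠ j)
    (hik : i ≠ k) (hjk : j ≠ k) {p q r : E3} (hp : p ∈ a i) (hq : q ∈ a j) (hr : r ∈ a k) :
    p ∉ segment ℝ q r := by
  rintro ⟨s, t, -, -, hst, e⟩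
  by_cases hqr : r - q = 0
  · obtain ⟨g, hg⟩ := exists_ne_zero
    have e1 : r = q := sub_eq_zero.1 hqr
    have e2 : p = q := by rw [← e, e1, ← add_smul, hst, one_smul]
    exact h i j k hij hik hjk p hp q hq r hr g 0 0 hg (by simp [e2]) (by simp [e1, e2])
  · have hs : s = 1 - t := by linarith
    refine h i j k hij hik hjk p hp q hq r hr (r - q) (-t) (1 - t) hqr ?_ ?_
    · rw [← e, hs]; module
    · rw [← e, hs]; module

lemma NoLine.ne {n : ℕ} {a : Fin n → Set E3} (h : NoLine a) (hne : ∀ i, (a i).Nonempty)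
    {i j k : Fin n} (hij : i ≠ j) (hik : i ≠ k) (hjk : j ≠ k) {p q : E3} (hp : p ∈ a i)
    (hq : q ∈ a j) : p ≠ q := by
  rintro rfl
  obtain ⟨r, hr⟩ := hne k
  exact h.not_seg hij hik hjk hp hq hr (left_mem_segment ℝ p r)

lemma compact_join {B C : Set E3} (hB : IsCompact B) (hC : IsCompact C) :
    IsCompact (convexJoin ℝ B C) := by
  have e : convexJoin ℝ B C =
      (fun z : (E3 × E3) × ℝ => (1 - z.2) • z.1.1 + z.2 • z.1.2) '' ((B ×ˢ C) ×ˢ Set.Icc 0 1) := by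
    ext x
    rw [mem_convexJoin]
    constructor
    · rintro ⟨q, hq, r, hr, s, t, hs, ht, hst, rfl⟩
      refine ⟨((q, r), t), ⟨⟨hq, hr⟩, ht, by linarith⟩, ?_⟩
      have : s = 1 - t := by linarith
      simp [this]
    · rintro ⟨⟨⟨q, r⟩, t⟩, ⟨⟨hq, hr⟩, h0, h1⟩, rfl⟩
      exact ⟨q, hq, r, hr, 1 - t, t, by linarith, h0, by ring, rfl⟩
  rw [e]
  exact ((hB.prod hC).prod isCompact_Icc).image (by fun_prop)

lemma exists_sep {A B C : Set E3} (hA : IsCompact A) (cA : Convex ℝ A) (hB : IsCompact B)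
    (cB : Convex ℝ B) (hC : IsCompact C) (cC : Convex ℝ C) (nB : B.Nonempty) (nC : C.Nonempty)
    (h : ∀ p ∈ A, ∀ q ∈ B, ∀ r ∈ C, p ∉ segment ℝ q r) :
    ∃ m : E3, ∀ p ∈ A, (∀ q ∈ B, inner ℝ m q < inner ℝ m p) ∧
      (∀ r ∈ C, inner ℝ m r < inner ℝ m p) := by
  have hd : Disjoint (convexJoin ℝ B C) A := by
    rw [Set.disjoint_left]
    intro x hx hxA
    obtain ⟨q, hq, r, hr, hx⟩ := mem_convexJoin.1 hx
    exact h x hxA q hq r hr hx
  obtain ⟨f, u, v, h1, h2, h3⟩ := geometric_hahn_banach_compact_closed (cB.convexJoin cC)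
    (compact_join hB hC) cA hA.isClosed hd
  refine ⟨(InnerProductSpace.toDual ℝ E3).symm f, fun p hp => ⟨fun q hq => ?_, fun r hr => ?_⟩⟩
  · rw [InnerProductSpace.toDual_symm_apply, InnerProductSpace.toDual_symm_apply]
    have := h1 q (subset_convexJoin_left nC hq)
    linarith [h3 p hp]
  · rw [InnerProductSpace.toDual_symm_apply, InnerProductSpace.toDual_symm_apply]
    have := h1 r (subset_convexJoin_right nB hr)
    linarith [h3 p hp]

lemma gram (a b m l x : E3) (ha : inner ℝ x a = 0) (hb : inner ℝ x b = 0) :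
    det3 a b x * det3 m l x =
      inner ℝ x x * (inner ℝ m a * inner ℝ l b - inner ℝ l a * inner ℝ m b) := by
  simp only [inner_eq, det3] at *
  linear_combination
    ((l 0 * a 0 + l 1 * a 1 + l 2 * a 2) * (x 0 * m 0 + x 1 * m 1 + x 2 * m 2)
      - (m 0 * a 0 + m 1 * a 1 + m 2 * a 2) * (x 0 * l 0 + x 1 * l 1 + x 2 * l 2)) * hb
    + ((m 0 * b 0 + m 1 * b 1 + m 2 * b 2) * (x 0 * l 0 + x 1 * l 1 + x 2 * l 2)
      - (l 0 * b 0 + l 1 * b 1 + l 2 * b 2) * (x 0 * m 0 + x 1 * m 1 + x 2 * m 2)) * ha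

lemma det3_cyc (p q r x : E3) : det3 (q - p) (r - p) x = det3 (r - q) (p - q) x := by
  simp [det3]
  ring

lemma step {p q r m l x : E3} (hx : x ≠ 0) (h1 : inner ℝ x p = inner ℝ x q)
    (h2 : inner ℝ x p = inner ℝ x r)
    (a1 : inner ℝ m q < inner ℝ m p) (a2 : inner ℝ m r < inner ℝ m p)
    (b1 : inner ℝ l r < inner ℝ l q) (b2 : inner ℝ l p < inner ℝ l q)
    (h : inner ℝ l r ≤ inner ℝ l p ∨ inner ℝ m r ≤ inner ℝ m q) :
    0 < det3 (q - p) (r - p) x * det3 m l x := by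
  rw [det3_cyc, det3_cyc q r p, gram _ _ _ _ _ (by rw [inner_sub_right]; linarith)
    (by rw [inner_sub_right]; linarith)]
  have hxx : 0 < inner ℝ x x := real_inner_self_pos.2 hx
  apply mul_pos hxx
  simp only [inner_sub_right]
  rcases h with h | h
  · nlinarith [mul_pos (sub_pos.2 b2) (sub_pos.2 a2), mul_nonneg (sub_nonneg.2 h) (sub_pos.2 a1).le]
  · nlinarith [mul_pos (sub_pos.2 b1) (sub_pos.2 a1), mul_nonneg (sub_nonneg.2 h) (sub_pos.2 b2).le]

def Two (p q r : Prop) : Prop := (p ∧ q) ∨ (q ∧ r) ∨ (r ∧ p)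

def Pos {n : ℕ} (f : Fin n → Fin n → Fin n → E3) (x : E3) (i j k : Fin n) : Prop :=
  Two (0 < inner ℝ (f i j k) x) (0 < inner ℝ (f j k i) x) (0 < inner ℝ (f k i j) x)

def Neg {n : ℕ} (f : Fin n → Fin n → Fin n → E3) (x : E3) (i j k : Fin n) : Prop :=
  Two (inner ℝ (f i j k) x < 0) (inner ℝ (f j k i) x < 0) (inner ℝ (f k i j) x < 0)

lemma Pos.not_neg {n : ℕ} {f : Fin n → Fin n → Fin n → E3} {x : E3} {i j k : Fin n}
    (h : Pos f x i j k) : ¬ Neg f x i j k := by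
  intro h'
  unfold Pos Two at h
  unfold Neg Two at h'
  rcases h with ⟨h1, h2⟩ | ⟨h1, h2⟩ | ⟨h1, h2⟩ <;>
    rcases h' with ⟨h3, h4⟩ | ⟨h3, h4⟩ | ⟨h3, h4⟩ <;> linarith

def Good {n : ℕ} (a : Fin n → Set E3) (f : Fin n → Fin n → Fin n → E3) : Prop :=
  ∀ i j k, i ≠ j → i ≠ k → j ≠ k → ∀ x : E3, x ≠ 0 → ∀ p ∈ a i, ∀ q ∈ a j, ∀ r ∈ a k,
    inner ℝ x p = inner ℝ x q → inner ℝ x p = inner ℝ x r →
      (0 < det3 (q - p) (r - p) x ∧ Pos f x i j k) ∨ (det3 (q - p) (r - p) x < 0 ∧ Neg f x i j k)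

lemma two_sign {D u v w : ℝ} (h : Two (0 < D * u) (0 < D * v) (0 < D * w)) :
    (0 < D ∧ Two (0 < u) (0 < v) (0 < w)) ∨ (D < 0 ∧ Two (u < 0) (v < 0) (w < 0)) := by
  unfold Two at *
  rcases lt_trichotomy D 0 with hD | hD | hD
  · right
    refine ⟨hD, ?_⟩
    have k : ∀ y : ℝ, 0 < D * y → y < 0 := fun y hy => by
      by_contra hc
      have := mul_nonpos_of_nonpos_of_nonneg hD.le (not_lt.1 hc)
      linarith
    rcases h with ⟨h1, h2⟩ | ⟨h1, h2⟩ | ⟨h1, h2⟩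
    · exact Or.inl ⟨k _ h1, k _ h2⟩
    · exact Or.inr (Or.inl ⟨k _ h1, k _ h2⟩)
    · exact Or.inr (Or.inr ⟨k _ h1, k _ h2⟩)
  · subst hD
    simp at h
  · left
    refine ⟨hD, ?_⟩
    have k : ∀ y : ℝ, 0 < D * y → 0 < y := fun y hy => (pos_iff_pos_of_mul_pos hy).1 hD
    rcases h with ⟨h1, h2⟩ | ⟨h1, h2⟩ | ⟨h1, h2⟩
    · exact Or.inl ⟨k _ h1, k _ h2⟩
    · exact Or.inr (Or.inl ⟨k _ h1, k _ h2⟩)
    · exact Or.inr (Or.inr ⟨k _ h1, k _ h2⟩)

lemma exists_good {n : ℕ} {a : Fin n → Set E3} (hc : ∀ i, IsCompact (a i))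
    (hv : ∀ i, Convex ℝ (a i)) (hne : ∀ i, (a i).Nonempty) (h : NoLine a) :
    ∃ f, Good a f := by
  have key : ∀ i j k : Fin n, ∃ m : E3, i ≠ j → i ≠ k → j ≠ k → ∀ p ∈ a i,
      (∀ q ∈ a j, inner ℝ m q < inner ℝ m p) ∧ (∀ r ∈ a k, inner ℝ m r < inner ℝ m p) := by
    intro i j k
    by_cases hd : i ≠ j ∧ i ≠ k ∧ j ≠ k
    · obtain ⟨m, hm⟩ := exists_sep (hc i) (hv i) (hc j) (hv j) (hc k) (hv k) (hne j) (hne k)
        (fun p hp q hq r hr => h.not_seg hd.1 hd.2.1 hd.2.2 hp hq hr)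
      exact ⟨m, fun _ _ _ => hm⟩
    · exact ⟨0, fun h1 h2 h3 => absurd ⟨h1, h2, h3⟩ hd⟩
  choose m hm using key
  refine ⟨fun i j k => cr (m i j k) (m j k i), ?_⟩
  intro i j k hij hik hjk x hx p hp q hq r hr e1 e2
  obtain ⟨A1, A2⟩ := hm i j k hij hik hjk p hp
  obtain ⟨B1, B2⟩ := hm j k i hjk hij.symm hik.symm q hq
  obtain ⟨C1, C2⟩ := hm k i j hik.symm hjk.symm hij r hr
  have a1 := A1 q hq
  have a2 := A2 r hr
  have b1 := B1 r hr
  have b2 := B2 p hp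
  have c1 := C1 p hp
  have c2 := C2 q hq
  have s0 := step hx e1 e2 a1 a2 b1 b2
  have s1 := step hx (e1.symm.trans e2) e1.symm b1 b2 c1 c2
  have s2 := step hx e2.symm (e2.symm.trans e1) c1 c2 a1 a2
  rw [← det3_cyc p q r] at s1
  rw [← det3_cyc q r p, ← det3_cyc p q r] at s2
  unfold Pos Neg
  simp only [inner_cr]
  apply two_sign
  unfold Two
  rcases le_total (inner ℝ (m i j k) r) (inner ℝ (m i j k) q) with ha | ha <;>
    rcases le_total (inner ℝ (m j k i) r) (inner ℝ (m j k i) p) with hb | hb <;>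
    rcases le_total (inner ℝ (m k i j) p) (inner ℝ (m k i j) q) with hc | hc <;> tauto

end Pool.Agent.MP_2c58a9_co
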