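import Mathlib
import Pool.Agent.MP_2c58a9_co.Lin1

/-!
Linear upper bound, part 2: overlaps of projections, sliding a normal vector along a segment,
and the counting lemma for points in convex position.
-/

namespace Pool.Agent.MP_2c58a9_co

open Metric

def Ov (x : E3) (A B : Set E3) : Prop := ∃ p ∈ A, ∃ q ∈ B, inner ℝ x p ≤ inner ℝ x q

def St (x : E3) (A B : Set E3) : Prop := ∃ p ∈ A, ∃ q ∈ B, inner ℝ x p < inner ℝ x q

lemma St.ov {x : E3} {A B : Set E3} (h : St x A B) : Ov x A B := by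
  obtain ⟨p, hp, q, hq, h⟩ := h
  exact ⟨p, hp, q, hq, h.le⟩

lemma ov_self (x : E3) {A : Set E3} (h : A.Nonempty) : Ov x A A := by
  obtain ⟨p, hp⟩ := h
  exact ⟨p, hp, p, hp, le_rfl⟩

lemma isOpen_st (A B : Set E3) : IsOpen {x | St x A B} := by
  have e : {x | St x A B} = ⋃ p ∈ A, ⋃ q ∈ B, {x : E3 | inner ℝ x p < inner ℝ x q} := by
    ext x
    simp [St]
  rw [e]
  exact isOpen_biUnion fun p _ => isOpen_biUnion fun q _ => isOpen_lt (by fun_prop) (by fun_prop)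

lemma isClosed_ov {A B : Set E3} (hA : IsCompact A) (hB : IsCompact B) :
    IsClosed {x | Ov x A B} := by
  have : CompactSpace ↥(A ×ˢ B) := isCompact_iff_compactSpace.1 (hA.prod hB)
  have e : {x | Ov x A B} = Prod.fst ''
      {z : E3 × ↥(A ×ˢ B) | inner ℝ z.1 z.2.1.1 ≤ inner ℝ z.1 z.2.1.2} := by
    ext x
    constructor
    · rintro ⟨p, hp, q, hq, h⟩
      exact ⟨(x, ⟨(p, q), hp, hq⟩), h, rfl⟩
    · rintro ⟨⟨y, ⟨p, q⟩, hp, hq⟩, h, rfl⟩
      exact ⟨p, hp, q, hq, h⟩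
  rw [e]
  exact isClosedMap_fst_of_compactSpace _ (isClosed_le (by fun_prop) (by fun_prop))

lemma mid {A : Set E3} (cA : Convex ℝ A) {x p q : E3} (hp : p ∈ A) (hq : q ∈ A) {t : ℝ}
    (h1 : inner ℝ x p ≤ t) (h2 : t ≤ inner ℝ x q) : ∃ r ∈ A, inner ℝ x r = t := by
  have hc : IsPreconnected A := cA.isPreconnected
  have := hc.intermediate_value hp hq (f := fun r => inner ℝ x r) (by fun_prop)
  obtain ⟨r, hr, e⟩ := this ⟨h1, h2⟩
  exact ⟨r, hr, e⟩

lemma helly {n : ℕ} {a : Fin n → Set E3} (hc : ∀ i, IsCompact (a i)) (hv : ∀ i, Convex ℝ (a i))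
    (hne : ∀ i, (a i).Nonempty) (x : E3) (I : Finset (Fin n)) (hI : I.Nonempty)
    (h : ∀ i ∈ I, ∀ j ∈ I, Ov x (a i) (a j)) : ∃ t : ℝ, ∀ i ∈ I, ∃ p ∈ a i, inner ℝ x p = t := by
  have k : ∀ i, ∃ m ∈ a i, ∀ p ∈ a i, inner ℝ x m ≤ inner ℝ x p := fun i => by
    obtain ⟨m, hm, h⟩ := (hc i).exists_isMinOn (hne i) (f := fun r => inner ℝ x r) (by fun_prop)
    exact ⟨m, hm, fun p hp => h hp⟩
  choose m hm1 hm2 using k
  obtain ⟨i0, hi0, hmax⟩ := I.exists_max_image (fun i => inner ℝ x (m i)) hI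
  refine ⟨inner ℝ x (m i0), fun i hi => ?_⟩
  obtain ⟨p, hp, q, hq, hpq⟩ := h i0 hi0 i hi
  exact mid (hv i) (hm1 i) hq (hmax i hi) ((hm2 i0 p hp).trans hpq)

lemma isOpen_two {P Q R : ℝ → Prop} (hP : IsOpen {s | P s}) (hQ : IsOpen {s | Q s})
    (hR : IsOpen {s | R s}) : IsOpen {s | Two (P s) (Q s) (R s)} :=
  ((hP.inter hQ).union ((hQ.inter hR).union (hR.inter hP)))

lemma pos_or_neg {n : ℕ} {a : Fin n → Set E3} (hc : ∀ i, IsCompact (a i))
    (hv : ∀ i, Convex ℝ (a i)) (hne : ∀ i, (a i).Nonempty) {f : Fin n → Fin n → Fin n → E3}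
    (hf : Good a f) {i j k : Fin n} (hij : i ≠ j) (hik : i ≠ k) (hjk : j ≠ k) {x : E3}
    (hx : x ≠ 0) (h : ∀ l ∈ ({i, j, k} : Finset (Fin n)), ∀ m ∈ ({i, j, k} : Finset (Fin n)),
      Ov x (a l) (a m)) : Pos f x i j k ∨ Neg f x i j k := by
  obtain ⟨t, ht⟩ := helly hc hv hne x {i, j, k} ⟨i, by simp⟩ h
  obtain ⟨p, hp, e1⟩ := ht i (by simp)
  obtain ⟨q, hq, e2⟩ := ht j (by simp)
  obtain ⟨r, hr, e3⟩ := ht k (by simp)
  rcases hf i j k hij hik hjk x hx p hp q hq r hr (e1.trans e2.symm) (e1.trans e3.symm) with h | h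
  · exact Or.inl h.2
  · exact Or.inr h.2

lemma seg {n : ℕ} {a : Fin n → Set E3} (hc : ∀ i, IsCompact (a i))
    (hv : ∀ i, Convex ℝ (a i)) (hne : ∀ i, (a i).Nonempty) {f : Fin n → Fin n → Fin n → E3}
    (hf : Good a f) {i j k : Fin n} (hij : i ≠ j) (hik : i ≠ k) (hjk : j ≠ k) {γ : ℝ → E3}
    (hγ : Continuous γ) (h0 : ∀ s, γ s ≠ 0) {s1 : ℝ} (hs : 0 ≤ s1)
    (h : ∀ s ∈ Set.Icc 0 s1, ∀ l ∈ ({i, j, k} : Finset (Fin n)),
      ∀ m ∈ ({i, j, k} : Finset (Fin n)), Ov (γ s) (a l) (a m)) :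
    Pos f (γ 0) i j k ↔ Pos f (γ s1) i j k := by
  have o1 : IsOpen {s | Pos f (γ s) i j k} :=
    isOpen_two (isOpen_lt (by fun_prop) (by fun_prop)) (isOpen_lt (by fun_prop) (by fun_prop))
      (isOpen_lt (by fun_prop) (by fun_prop))
  have o2 : IsOpen {s | Neg f (γ s) i j k} :=
    isOpen_two (isOpen_lt (by fun_prop) (by fun_prop)) (isOpen_lt (by fun_prop) (by fun_prop))
      (isOpen_lt (by fun_prop) (by fun_prop))
  have hd : Disjoint {s | Pos f (γ s) i j k} {s | Neg f (γ s) i j k} :=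
    Set.disjoint_left.2 fun s h1 h2 => Pos.not_neg h1 h2
  have m0 : (0 : ℝ) ∈ Set.Icc 0 s1 := ⟨le_rfl, hs⟩
  have m1 : s1 ∈ Set.Icc 0 s1 := ⟨hs, le_rfl⟩
  rcases isPreconnected_Icc.subset_or_subset o1 o2 hd
    (fun s hs => pos_or_neg hc hv hne hf hij hik hjk (h0 s) (h s hs)) with k | k
  · exact ⟨fun _ => k m1, fun _ => k m0⟩
  · exact ⟨fun h => absurd (k m0) h.not_neg, fun h => absurd (k m1) h.not_neg⟩

/-- first time at which a pair from `S` stops overlapping strictly -/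
lemma first_tight {n : ℕ} {a : Fin n → Set E3} (hc : ∀ i, IsCompact (a i))
    (hne : ∀ i, (a i).Nonempty) (S : Finset (Fin n)) {γ : ℝ → E3} (hγ : Continuous γ)
    (h0 : ∀ k ∈ S, ∀ j ∈ S, Ov (γ 0) (a k) (a j)) :
    (∀ s ∈ Set.Icc (0 : ℝ) 1, ∀ k ∈ S, ∀ j ∈ S, Ov (γ s) (a k) (a j)) ∨
    ∃ s1 ∈ Set.Icc (0 : ℝ) 1, (∀ s ∈ Set.Icc 0 s1, ∀ k ∈ S, ∀ j ∈ S, Ov (γ s) (a k) (a j)) ∧
      ∃ k ∈ S, ∃ j ∈ S, k ≠ j ∧ ¬ St (γ s1) (a k) (a j) := by
  set G : Set ℝ := {s | ∀ k ∈ S, ∀ j ∈ S, k ≠ j → St (γ s) (a k) (a j)} with hG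
  have oG : IsOpen G := by
    have e : G = ⋂ k ∈ S, ⋂ j ∈ S, {s | k ≠ j → St (γ s) (a k) (a j)} := by
      ext s
      simp [hG]
    rw [e]
    refine isOpen_biInter_finset fun k _ => isOpen_biInter_finset fun j _ => ?_
    by_cases hkj : k = j
    · simp [hkj]
    · simp only [ne_eq, hkj, not_false_eq_true, forall_true_left]
      exact (isOpen_st (a k) (a j)).preimage hγ
  have gov : ∀ s ∈ G, ∀ k ∈ S, ∀ j ∈ S, Ov (γ s) (a k) (a j) := by
    intro s hs k hk j hj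
    by_cases hkj : k = j
    · subst hkj
      exact ov_self _ (hne k)
    · exact (hs k hk j hj hkj).ov
  by_cases hN : (Set.Icc (0 : ℝ) 1 ∩ Gᶜ).Nonempty
  · right
    obtain ⟨s1, ⟨hs1, hs1G⟩, hmin⟩ :=
      (isCompact_Icc.inter_right oG.isClosed_compl).exists_isLeast hN
    refine ⟨s1, hs1, ?_, ?_⟩
    · intro s hs k hk j hj
      rcases eq_or_lt_of_le hs1.1 with e | e
      · have : s = 0 := le_antisymm (e ▸ hs.2) hs.1
        rw [this]
        exact h0 k hk j hj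
      · have cl : IsClosed {s | Ov (γ s) (a k) (a j)} := (isClosed_ov (hc k) (hc j)).preimage hγ
        have sub : Set.Ico 0 s1 ⊆ {s | Ov (γ s) (a k) (a j)} := by
          intro s' hs'
          refine gov s' ?_ k hk j hj
          by_contra hcon
          exact absurd (hmin ⟨⟨hs'.1, hs'.2.le.trans hs1.2⟩, hcon⟩) (not_le.2 hs'.2)
        have := closure_minimal sub cl
        rw [closure_Ico e.ne] at this
        exact this hs
    · by_contra hcon
      apply hs1G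
      intro k hk j hj hkj
      by_contra h2
      exact hcon ⟨k, hk, j, hj, hkj, h2⟩
  · left
    intro s hs
    refine gov s ?_
    by_contra hcon
    exact hN ⟨s, hs, hcon⟩

/-- patterns of order-convex or co-convex predicates along a real key -/
lemma count_patterns {ι M : Type*} (S : Finset ι) (F : Finset M) (key : ι → ℝ)
    (P : M → ι → Prop)
    (hP : ∀ m ∈ F, (∀ x ∈ S, ∀ y ∈ S, ∀ z ∈ S, key x ≤ key y → key y ≤ key z →
        P m x → P m z → P m y) ∨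
      (∀ x ∈ S, ∀ y ∈ S, ∀ z ∈ S, key x ≤ key y → key y ≤ key z → ¬ P m x → ¬ P m z → ¬ P m y))
    (hinj : ∀ x ∈ S, ∀ y ∈ S, (∀ m ∈ F, (P m x ↔ P m y)) → x = y) :
    S.card ≤ 2 * F.card + 1 := by
  classical
  have k : ∀ m, ∃ Q : ι → Prop, m ∈ F → (∀ x ∈ S, ∀ y ∈ S, ∀ z ∈ S, key x ≤ key y →
      key y ≤ key z → Q x → Q z → Q y) ∧ ∀ x y, (Q x ↔ Q y) → (P m x ↔ P m y) := by
    intro m
    by_cases hm : m ∈ F
    · rcases hP m hm with h | h
      · exact ⟨P m, fun _ => ⟨h, fun _ _ h => h⟩⟩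
      · exact ⟨fun x => ¬ P m x, fun _ => ⟨h, fun _ _ h => not_iff_not.1 h⟩⟩
    · exact ⟨P m, fun h => absurd h hm⟩
  choose Q hQ using k
  let Lo : ι → Finset M := fun y => F.filter fun m => ∃ x ∈ S, Q m x ∧ key x ≤ key y
  let Hi : ι → Finset M := fun y => F.filter fun m => ¬ ∃ z ∈ S, Q m z ∧ key y ≤ key z
  have mLo : ∀ x y, key x ≤ key y → Lo x ⊆ Lo y := by
    intro x y h m hm
    simp only [Lo, Finset.mem_filter] at hm ⊢
    obtain ⟨h1, w, hw, h2, h3⟩ := hm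
    exact ⟨h1, w, hw, h2, h3.trans h⟩
  have mHi : ∀ x y, key x ≤ key y → Hi x ⊆ Hi y := by
    intro x y h m hm
    simp only [Hi, Finset.mem_filter] at hm ⊢
    refine ⟨hm.1, ?_⟩
    rintro ⟨w, hw, h2, h3⟩
    exact hm.2 ⟨w, hw, h2, h.trans h3⟩
  have rep : ∀ m ∈ F, ∀ y ∈ S, Q m y ↔ (m ∈ Lo y ∧ m ∉ Hi y) := by
    intro m hm y hy
    simp only [Lo, Hi, Finset.mem_filter, hm, true_and, not_not]
    constructor
    · intro h
      exact ⟨⟨y, hy, h, le_rfl⟩, ⟨y, hy, h, le_rfl⟩⟩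
    · rintro ⟨⟨x, hx, h1, h2⟩, ⟨z, hz, h3, h4⟩⟩
      exact (hQ m hm).1 x hx y hy z hz h2 h4 h1 h3
  have main : ∀ x ∈ S, ∀ y ∈ S, key x ≤ key y →
      (Lo x).card + (Hi x).card = (Lo y).card + (Hi y).card → x = y := by
    intro x hx y hy h e
    have c1 := Finset.card_le_card (mLo x y h)
    have c2 := Finset.card_le_card (mHi x y h)
    have e1 : Lo x = Lo y := Finset.eq_of_subset_of_card_le (mLo x y h) (by omega)
    have e2 : Hi x = Hi y := Finset.eq_of_subset_of_card_le (mHi x y h) (by omega)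
    refine hinj x hx y hy fun m hm => (hQ m hm).2 x y ?_
    rw [rep m hm x hx, rep m hm y hy, e1, e2]
  have : S.card ≤ (Finset.range (2 * F.card + 1)).card := by
    refine Finset.card_le_card_of_injOn (fun x => (Lo x).card + (Hi x).card) ?_ ?_
    · intro x _
      have c1 : (Lo x).card ≤ F.card := Finset.card_filter_le _ _
      have c2 : (Hi x).card ≤ F.card := Finset.card_filter_le _ _
      simp only [Finset.coe_range, Set.mem_Iio]
      omega
    · intro x hx y hy e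
      rcases le_total (key x) (key y) with h | h
      · exact main x hx y hy h e
      · exact (main y hy x hx h e.symm).symm
  simpa using this

end Pool.Agent.MP_2c58a9_co
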