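import Mathlib
import Pool.Agent.MP_2c58a9_co.Lin2

/-!
Linear upper bound, part 3: sets far from the line of intersection of two transversal planes have
slack, few sets are near that line, and tight normals are in convex position.
-/

namespace Pool.Agent.MP_2c58a9_co

open Metric

lemma inner_le {u v : E3} {α R : ℝ} (hu : ‖u‖ ≤ α) (hv : ‖v‖ ≤ R) : |inner ℝ u v| ≤ α * R :=
  (abs_real_inner_le_norm u v).trans
    (mul_le_mul hu hv (norm_nonneg _) ((norm_nonneg _).trans hu))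

lemma low {A : Set E3} {R α : ℝ} (hR : ∀ p ∈ A, ∀ q ∈ A, ‖p - q‖ ≤ R)
    {u u1 u2 q0 q1 q2 c : E3} {t t1 t2 : ℝ}
    (h0 : q0 ∈ A) (h1 : q1 ∈ A) (h2 : q2 ∈ A) (hc : c ∈ A)
    (e0 : inner ℝ u q0 = t) (e1 : inner ℝ u1 q1 = t1) (e2 : inner ℝ u2 q2 = t2)
    (d1 : ‖u1 - u‖ ≤ α) (d2 : ‖u2 - u‖ ≤ α) (d12 : ‖u1 - u2‖ ≤ α) :
    ∃ q ∈ A, inner ℝ u q ≤ t ∧ inner ℝ u1 q - t1 + (inner ℝ u2 q - t2) ≤ 2 * (α * R) ∧
      (5 * (α * R) ≤ |inner ℝ u1 c - t1 - (inner ℝ u2 c - t2)| →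
        inner ℝ u1 q - t1 + (inner ℝ u2 q - t2) ≤ -(2 * (α * R))) := by
  obtain ⟨q, hq, m0, m1, m2⟩ : ∃ q ∈ A, inner ℝ u q ≤ inner ℝ u q0 ∧ inner ℝ u q ≤ inner ℝ u q1 ∧
      inner ℝ u q ≤ inner ℝ u q2 := by
    rcases le_total (inner ℝ u q0) (inner ℝ u q1) with a | a <;>
      rcases le_total (inner ℝ u q0) (inner ℝ u q2) with b | b <;>
      rcases le_total (inner ℝ u q1) (inner ℝ u q2) with c | c <;>
      first
        | exact ⟨q0, h0, le_rfl, by linarith, by linarith⟩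
        | exact ⟨q1, h1, by linarith, le_rfl, by linarith⟩
        | exact ⟨q2, h2, by linarith, by linarith, le_rfl⟩
  have b1 := abs_le.1 (inner_le d1 (hR q hq q1 h1))
  have b2 := abs_le.1 (inner_le d2 (hR q hq q2 h2))
  have b3 := abs_le.1 (inner_le d12 (hR q hq c hc))
  simp only [inner_sub_left, inner_sub_right] at b1 b2 b3
  refine ⟨q, hq, by linarith, by linarith, fun h => ?_⟩
  rcases le_abs.1 h with h | h <;> linarith

lemma high {A : Set E3} {R α : ℝ} (hR : ∀ p ∈ A, ∀ q ∈ A, ‖p - q‖ ≤ R)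
    {u u1 u2 q0 q1 q2 c : E3} {t t1 t2 : ℝ}
    (h0 : q0 ∈ A) (h1 : q1 ∈ A) (h2 : q2 ∈ A) (hc : c ∈ A)
    (e0 : inner ℝ u q0 = t) (e1 : inner ℝ u1 q1 = t1) (e2 : inner ℝ u2 q2 = t2)
    (d1 : ‖u1 - u‖ ≤ α) (d2 : ‖u2 - u‖ ≤ α) (d12 : ‖u1 - u2‖ ≤ α) :
    ∃ q ∈ A, t ≤ inner ℝ u q ∧ -(2 * (α * R)) ≤ inner ℝ u1 q - t1 + (inner ℝ u2 q - t2) ∧
      (5 * (α * R) ≤ |inner ℝ u1 c - t1 - (inner ℝ u2 c - t2)| →
        2 * (α * R) ≤ inner ℝ u1 q - t1 + (inner ℝ u2 q - t2)) := by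
  have k : ∀ x y : E3, ‖-x - -y‖ = ‖x - y‖ := fun x y => by
    rw [← norm_neg]; congr 1; abel
  obtain ⟨q, hq, a1, a2, a3⟩ := low hR (u := -u) (u1 := -u1) (u2 := -u2) (t := -t) (t1 := -t1)
    (t2 := -t2) (α := α) h0 h1 h2 hc (by rw [inner_neg_left, e0]) (by rw [inner_neg_left, e1])
    (by rw [inner_neg_left, e2]) (by rw [k]; exact d1) (by rw [k]; exact d2) (by rw [k]; exact d12)
  simp only [inner_neg_left] at a1 a2 a3
  refine ⟨q, hq, by linarith, by linarith, fun h => ?_⟩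
  have e : -inner ℝ u1 c - -t1 - (-inner ℝ u2 c - -t2) =
      -(inner ℝ u1 c - t1 - (inner ℝ u2 c - t2)) := by ring
  rw [e, abs_neg] at a3
  linarith [a3 h]

noncomputable def slide (u u1 u2 : E3) (s : ℝ) : E3 := (1 - s) • u + s • ((1 / 2 : ℝ) • (u1 + u2))

lemma inner_slide (u u1 u2 q : E3) (s : ℝ) : inner ℝ (slide u u1 u2 s) q =
    (1 - s) * inner ℝ u q + s / 2 * (inner ℝ u1 q + inner ℝ u2 q) := by
  simp only [slide, inner_add_left, real_inner_smul_left]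
  ring

lemma slide_apply {u u1 u2 : E3} {c : Fin 3} (h : u c = 1) (h1 : u1 c = 1) (h2 : u2 c = 1)
    (s : ℝ) : slide u u1 u2 s c = 1 := by
  simp [slide, h, h1, h2]
  ring

lemma ne_zero_of_apply {u : E3} {c : Fin 3} (h : u c = 1) : u ≠ 0 := by
  rintro rfl
  simp at h

lemma ov_of_big {n : ℕ} {a : Fin n → Set E3} {R α : ℝ}
    (hR : ∀ i, ∀ p ∈ a i, ∀ q ∈ a i, ‖p - q‖ ≤ R) {u u1 u2 : E3} {t t1 t2 : ℝ}
    {p p1 p2 c0 : Fin n → E3} (hp : ∀ i, p i ∈ a i ∧ inner ℝ u (p i) = t)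
    (hp1 : ∀ i, p1 i ∈ a i ∧ inner ℝ u1 (p1 i) = t1)
    (hp2 : ∀ i, p2 i ∈ a i ∧ inner ℝ u2 (p2 i) = t2) (hc : ∀ i, c0 i ∈ a i)
    (d1 : ‖u1 - u‖ ≤ α) (d2 : ‖u2 - u‖ ≤ α) (d12 : ‖u1 - u2‖ ≤ α) {s : ℝ}
    (hs : s ∈ Set.Icc (0 : ℝ) 1) {l m : Fin n}
    (h : 5 * (α * R) ≤ |inner ℝ u1 (c0 l) - t1 - (inner ℝ u2 (c0 l) - t2)| ∨
      5 * (α * R) ≤ |inner ℝ u1 (c0 m) - t1 - (inner ℝ u2 (c0 m) - t2)|) :
    Ov (slide u u1 u2 s) (a l) (a m) := by
  obtain ⟨q, hq, a1, a2, a3⟩ := low (hR l) (hp l).1 (hp1 l).1 (hp2 l).1 (hc l) (hp l).2 (hp1 l).2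
    (hp2 l).2 d1 d2 d12
  obtain ⟨r, hr, b1, b2, b3⟩ := high (hR m) (hp m).1 (hp1 m).1 (hp2 m).1 (hc m) (hp m).2
    (hp1 m).2 (hp2 m).2 d1 d2 d12
  refine ⟨q, hq, r, hr, ?_⟩
  rw [inner_slide, inner_slide]
  have k1 : (1 - s) * inner ℝ u q ≤ (1 - s) * inner ℝ u r :=
    mul_le_mul_of_nonneg_left (a1.trans b1) (by linarith [hs.2])
  have k2 : inner ℝ u1 q + inner ℝ u2 q ≤ inner ℝ u1 r + inner ℝ u2 r := by
    rcases h with h | h
    · linarith [a3 h]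
    · linarith [b3 h]
  have k3 := mul_le_mul_of_nonneg_left k2 (show 0 ≤ s / 2 by linarith [hs.1])
  linarith

lemma exists_dir (c : Fin 3) {u w : E3} (hu : u c = 1) (hw : w c = 0) (hw0 : w ≠ 0) :
    ∃ g : E3, g ≠ 0 ∧ ∀ v : E3, inner ℝ w v = 0 → inner ℝ u v = 0 → ∃ s : ℝ, v = s • g := by
  have hg : cr w u ≠ 0 := by
    intro h
    have g0 := congrArg (fun z : E3 => z 0) h
    have g1 := congrArg (fun z : E3 => z 1) h
    have g2 := congrArg (fun z : E3 => z 2) h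
    apply hw0
    ext i
    fin_cases c <;> fin_cases i <;> simp [cr] at * <;> simp_all
  refine ⟨cr w u, hg, fun v h1 h2 => ⟨inner ℝ (cr w u) v / inner ℝ (cr w u) (cr w u), ?_⟩⟩
  have hp : inner ℝ (cr w u) (cr w u) ≠ 0 := (real_inner_self_pos.2 hg).ne'
  have k : ∀ i, v i * inner ℝ (cr w u) (cr w u) = inner ℝ (cr w u) v * cr w u i := by
    intro i
    rw [inner_eq] at h1 h2
    simp only [inner_eq]
    fin_cases i
    · simp [cr]
      linear_combination ((w 2 * u 0 - w 0 * u 2) * w 2 - (w 0 * u 1 - w 1 * u 0) * w 1) * h2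
        - ((w 2 * u 0 - w 0 * u 2) * u 2 - (w 0 * u 1 - w 1 * u 0) * u 1) * h1
    · simp [cr]
      linear_combination ((w 0 * u 1 - w 1 * u 0) * w 0 - (w 1 * u 2 - w 2 * u 1) * w 2) * h2
        - ((w 0 * u 1 - w 1 * u 0) * u 0 - (w 1 * u 2 - w 2 * u 1) * u 2) * h1
    · simp [cr]
      linear_combination ((w 1 * u 2 - w 2 * u 1) * w 1 - (w 2 * u 0 - w 0 * u 2) * w 0) * h2
        - ((w 1 * u 2 - w 2 * u 1) * u 1 - (w 2 * u 0 - w 0 * u 2) * u 0) * h1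
  ext i
  rw [PiLp.smul_apply, smul_eq_mul, div_mul_eq_mul_div, eq_div_iff hp, k i]

lemma shift (c : Fin 3) {u w x y : E3} (hu : u c = 1) (hw : w c = 0) (hun : ‖u‖ ≤ 2)
    (hwn : ‖w‖ = 1) (h1 : |inner ℝ w x - inner ℝ w y| ≤ 1 / 4)
    (h2 : |inner ℝ u x - inner ℝ u y| ≤ 1 / 4) :
    ∃ p ∈ closedBall y 1, inner ℝ w p = inner ℝ w x ∧ inner ℝ u p = inner ℝ u x := by
  set A := inner ℝ w x - inner ℝ w y with hA
  set B := (inner ℝ u x - inner ℝ u y) - A * inner ℝ u w with hB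
  let e : E3 := EuclideanSpace.single c 1
  have e1 : inner ℝ w e = 0 := by simp [e, EuclideanSpace.inner_single_right, hw]
  have e2 : inner ℝ u e = 1 := by simp [e, EuclideanSpace.inner_single_right, hu]
  have e3 : ‖e‖ = 1 := by simp [e]
  have e4 : inner ℝ w w = 1 := by rw [real_inner_self_eq_norm_sq, hwn]; norm_num
  have e5 : |inner ℝ u w| ≤ 2 * 1 := inner_le hun hwn.le
  refine ⟨y + (A • w + B • e), ?_, ?_, ?_⟩
  · rw [mem_closedBall, dist_eq_norm, add_sub_cancel_left]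
    have k1 : |A * inner ℝ u w| ≤ 1 / 4 * (2 * 1) := by
      rw [abs_mul]; exact mul_le_mul h1 e5 (abs_nonneg _) (by norm_num)
    have k2 : |B| ≤ 3 / 4 := by
      have := abs_sub (inner ℝ u x - inner ℝ u y) (A * inner ℝ u w)
      linarith
    calc ‖A • w + B • e‖ ≤ ‖A • w‖ + ‖B • e‖ := norm_add_le _ _
      _ = |A| + |B| := by rw [norm_smul, norm_smul, hwn, e3]; simp
      _ ≤ 1 := by linarith
  · rw [inner_add_right, inner_add_right, real_inner_smul_right, real_inner_smul_right, e1, e4, hA]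
    ring
  · rw [inner_add_right, inner_add_right, real_inner_smul_right, real_inner_smul_right, e2, hB]
    ring

lemma floor_close {x y : ℝ} (h : ⌊x⌋ = ⌊y⌋) : |x - y| ≤ 1 := (Int.abs_sub_lt_one_of_floor_eq_floor h).le

lemma tube {n : ℕ} {a : Fin n → Set E3} (h : NoLine a) (c0 : Fin n → E3)
    (hb : ∀ i, closedBall (c0 i) 1 ⊆ a i) (c : Fin 3) {u w : E3} (hu : u c = 1) (hw : w c = 0)
    (hun : ‖u‖ ≤ 2) (hwn : ‖w‖ = 1) {t τ : ℝ} {N : ℕ} (S : Finset (Fin n))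
    (hS : ∀ i ∈ S, |4 * (inner ℝ w (c0 i) - τ)| ≤ N ∧ |4 * (inner ℝ u (c0 i) - t)| ≤ N) :
    S.card ≤ 2 * (2 * N + 1) ^ 2 := by
  classical
  have hw0 : w ≠ 0 := by rintro rfl; simp at hwn
  obtain ⟨g, hg, hdir⟩ := exists_dir c hu hw hw0
  have fl : ∀ x : ℝ, |x| ≤ N → ⌊x⌋ ∈ Finset.Icc (-(N : ℤ)) N := by
    intro x hx
    obtain ⟨h1, h2⟩ := abs_le.1 hx
    rw [Finset.mem_Icc]
    constructor
    · rw [Int.le_floor]; push_cast; exact h1
    · have : (⌊x⌋ : ℝ) ≤ N := (Int.floor_le x).trans h2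
      exact_mod_cast this
  have := Finset.card_le_mul_card_image_of_maps_to
    (f := fun i => (⌊4 * (inner ℝ w (c0 i) - τ)⌋, ⌊4 * (inner ℝ u (c0 i) - t)⌋)) (s := S)
    (t := Finset.Icc (-(N : ℤ)) N ×ˢ Finset.Icc (-(N : ℤ)) N)
    (fun i hi => Finset.mem_product.2 ⟨fl _ (hS i hi).1, fl _ (hS i hi).2⟩) 2 (by
      intro b _
      by_contra hcon
      obtain ⟨i, hi, j, hj, k, hk, hij, hik, hjk⟩ := Finset.two_lt_card.1 (not_le.1 hcon)
      have ei := (Finset.mem_filter.1 hi).2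
      have ej := (Finset.mem_filter.1 hj).2
      have ek := (Finset.mem_filter.1 hk).2
      have key : ∀ l, (⌊4 * (inner ℝ w (c0 l) - τ)⌋, ⌊4 * (inner ℝ u (c0 l) - t)⌋) = b →
          ∃ p ∈ a l, ∃ s : ℝ, p = c0 i + s • g := by
        intro l el
        have e := ei.trans el.symm
        have f1 := abs_le.1 (floor_close (Prod.ext_iff.1 e).1)
        have f2 := abs_le.1 (floor_close (Prod.ext_iff.1 e).2)
        obtain ⟨p, hp, p1, p2⟩ := shift c (x := c0 i) (y := c0 l) hu hw hun hwn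
          (abs_le.2 ⟨by linarith [f1.1], by linarith [f1.2]⟩)
          (abs_le.2 ⟨by linarith [f2.1], by linarith [f2.2]⟩)
        obtain ⟨s, hs⟩ := hdir (p - c0 i) (by rw [inner_sub_right, p1, sub_self])
          (by rw [inner_sub_right, p2, sub_self])
        exact ⟨p, hb l hp, s, by rw [← hs]; abel⟩
      obtain ⟨q, hq, s, hs⟩ := key j ej
      obtain ⟨r, hr, s', hs'⟩ := key k ek
      exact h i j k hij hik hjk (c0 i) (hb i (mem_closedBall_self zero_le_one)) q hq r hr g s s'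
        hg hs hs')
  rw [Finset.card_product, Int.card_Icc] at this
  have e : ((N : ℤ) + 1 - -(N : ℤ)).toNat = 2 * N + 1 := by omega
  rw [e] at this
  rw [sq]
  exact this

lemma inner_perm {e e' c : Fin 3} (h1 : e ≠ e') (h2 : e ≠ c) (h3 : e' ≠ c) (x d : E3) :
    inner ℝ x d = x e * d e + x e' * d e' + x c * d c := by
  rw [inner_eq]
  fin_cases e <;> fin_cases e' <;> fin_cases c <;> simp at h1 h2 h3 ⊢ <;> ring

lemma cvx {e e' c : Fin 3} (h1 : e ≠ e') (h2 : e ≠ c) (h3 : e' ≠ c) {x y z d g : E3} {ε : ℝ}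
    (hε : ε * ε = 1) (hx : x c = 1) (hy : y c = 1) (hz : z c = 1) (hd : 0 < ε * d e)
    (y0 : inner ℝ y d = 0) (x0 : 0 ≤ inner ℝ x d) (z0 : 0 ≤ inner ℝ z d)
    (k1 : x e' ≤ y e') (k2 : y e' ≤ z e') :
    (ε * g e ≤ 0 → 0 < inner ℝ g x → 0 < inner ℝ g z → 0 < inner ℝ g y) ∧
    (0 ≤ ε * g e → ¬ 0 < inner ℝ g x → ¬ 0 < inner ℝ g z → ¬ 0 < inner ℝ g y) := by
  obtain ⟨l, l0, l1, hl⟩ : ∃ l : ℝ, 0 ≤ l ∧ l ≤ 1 ∧ y e' = l * x e' + (1 - l) * z e' := by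
    rcases eq_or_lt_of_le (k1.trans k2) with h | h
    · exact ⟨1, zero_le_one, le_rfl, by linarith⟩
    · have hp : 0 < z e' - x e' := by linarith
      refine ⟨(z e' - y e') / (z e' - x e'), div_nonneg (by linarith) hp.le,
        (div_le_one hp).2 (by linarith), ?_⟩
      field_simp
      ring
  set h := l * x e + (1 - l) * z e - y e with hh
  have i1 : l * inner ℝ x d + (1 - l) * inner ℝ z d = inner ℝ y d + h * d e := by
    rw [inner_perm h1 h2 h3 x, inner_perm h1 h2 h3 y, inner_perm h1 h2 h3 z, hx, hy, hz, hl, hh]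
    ring
  have i2 : inner ℝ g y = l * inner ℝ g x + (1 - l) * inner ℝ g z - h * g e := by
    rw [inner_perm h1 h2 h3 g x, inner_perm h1 h2 h3 g y, inner_perm h1 h2 h3 g z, hx, hy, hz, hl,
      hh]
    ring
  have l2 : 0 ≤ 1 - l := by linarith
  have i3 : 0 ≤ h * d e := by
    have := mul_nonneg l0 x0
    have := mul_nonneg l2 z0
    linarith
  have i4 : 0 ≤ ε * h := by
    by_contra hc
    have := mul_neg_of_neg_of_pos (not_le.1 hc) hd
    have e : ε * h * (ε * d e) = h * d e := by linear_combination (h * d e) * hε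
    linarith
  have i5 : h * g e = ε * h * (ε * g e) := by linear_combination (-(h * g e)) * hε
  constructor
  · intro a1 a2 a3
    have := mul_nonpos_of_nonneg_of_nonpos i4 a1
    rcases eq_or_lt_of_le l0 with e | e
    · rw [i2, i5, ← e]; linarith
    · have := mul_pos e a2
      have := mul_nonneg l2 a3.le
      linarith
  · intro a1 a2 a3
    have := mul_nonneg i4 a1
    have := mul_nonpos_of_nonneg_of_nonpos l0 (not_lt.1 a2)
    have := mul_nonpos_of_nonneg_of_nonpos l2 (not_lt.1 a3)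
    rw [not_lt]
    linarith

lemma type_ext {n : ℕ} {a : Fin n → Set E3} {f : Fin n → Fin n → Fin n → E3} (hf : Good a f)
    {u u' : E3} {t t' : ℝ} {p p' : Fin n → E3} (hu : u ≠ 0) (hu' : u' ≠ 0)
    (hp : ∀ i, p i ∈ a i ∧ inner ℝ u (p i) = t) (hp' : ∀ i, p' i ∈ a i ∧ inner ℝ u' (p' i) = t')
    (h : ∀ i j k, i ≠ j → i ≠ k → j ≠ k → (Pos f u i j k ↔ Pos f u' i j k)) :
    orderType u p = orderType u' p' := by
  funext i j k
  rw [orderType_eq, orderType_eq]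
  have z3 : ∀ x y : E3, det3 x x y = 0 := fun x y => by simp only [det3]; ring
  by_cases hij : i = j
  · subst hij
    simp [det3]
  by_cases hik : i = k
  · subst hik
    simp [det3]
  by_cases hjk : j = k
  · subst hjk
    rw [z3, z3]
  have k1 := hf i j k hij hik hjk u hu _ (hp i).1 _ (hp j).1 _ (hp k).1
    ((hp i).2.trans (hp j).2.symm) ((hp i).2.trans (hp k).2.symm)
  have k2 := hf i j k hij hik hjk u' hu' _ (hp' i).1 _ (hp' j).1 _ (hp' k).1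
    ((hp' i).2.trans (hp' j).2.symm) ((hp' i).2.trans (hp' k).2.symm)
  have k3 := h i j k hij hik hjk
  rcases k1 with ⟨a1, a2⟩ | ⟨a1, a2⟩ <;> rcases k2 with ⟨b1, b2⟩ | ⟨b1, b2⟩
  · rw [sign_pos a1, sign_pos b1]
  · exact absurd b2 (k3.1 a2).not_neg
  · exact absurd a2 (k3.2 b2).not_neg
  · rw [sign_neg a1, sign_neg b1]

end Pool.Agent.MP_2c58a9_co
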