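import Mathlib
import Pool.Agent.MP_2c58a9_co.Lin3

/-!
Linear upper bound, part 4: the count in one chart and the final bound.
-/

namespace Pool.Agent.MP_2c58a9_co

open Metric

lemma third {n : ℕ} (hn : 3 ≤ n) (k j : Fin n) : ∃ l : Fin n, k ≠ l ∧ j ≠ l := by
  by_contra hc
  have : (Finset.univ : Finset (Fin n)) ⊆ {k, j} := by
    intro l _
    by_contra h
    simp only [Finset.mem_insert, Finset.mem_singleton, not_or] at h
    exact hc ⟨l, fun e => h.1 e.symm, fun e => h.2 e.symm⟩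
  have h1 := Finset.card_le_card this
  have h2 : ({k, j} : Finset (Fin n)).card ≤ 2 := Finset.card_le_two
  simp at h1
  omega

lemma fin3_a : ∀ c : Fin 3, ∃ e e' : Fin 3, e ≠ e' ∧ e ≠ c ∧ e' ≠ c := by decide

lemma fin3_b : ∀ e c : Fin 3, ∃ e' : Fin 3, e ≠ e' ∧ e' ≠ c := by decide

lemma exists_coord {c : Fin 3} {x d : E3} (hx : x c = 1) (hd : d ≠ 0) (h0 : inner ℝ x d = 0) :
    ∃ (e : Fin 3) (ε : ℝ), e ≠ c ∧ (ε = 1 ∨ ε = -1) ∧ 0 < ε * d e := by
  have : ∃ e : Fin 3, e ≠ c ∧ d e ≠ 0 := by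
    by_contra hc
    have k : ∀ e, e ≠ c → d e = 0 := fun e he => by
      by_contra h
      exact hc ⟨e, he, h⟩
    obtain ⟨e, e', h1, h2, h3⟩ := fin3_a c
    rw [inner_perm h1 h2 h3, k e h2, k e' h3, hx] at h0
    apply hd
    ext i
    by_cases hi : i = c
    · rw [hi]
      simpa using h0
    · simpa using k i hi
  obtain ⟨e, he, h⟩ := this
  rcases lt_or_gt_of_ne h with h | h
  · exact ⟨e, -1, he, Or.inr rfl, by linarith⟩
  · exact ⟨e, 1, he, Or.inl rfl, by linarith⟩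

lemma chart {n : ℕ} (hn : 3 ≤ n) {a : Fin n → Set E3} (hc : ∀ i, IsCompact (a i))
    (hv : ∀ i, Convex ℝ (a i)) (c0 : Fin n → E3) (hb : ∀ i, closedBall (c0 i) 1 ⊆ a i) {R : ℝ}
    (hR : ∀ i, ∀ p ∈ a i, ∀ q ∈ a i, ‖p - q‖ ≤ R) (hL : NoLine a) (c : Fin 3) (N K : ℕ)
    (hN : 20 * R ≤ N) (hK : 2 * (2 * N + 1) ^ 2 ≤ K)
    (S : Finset (Fin n → Fin n → Fin n → SignType))
    (hS : ∀ τ ∈ S, ∃ (u : E3) (t : ℝ) (p : Fin n → E3), u c = 1 ∧ ‖u‖ ≤ 2 ∧
      (∀ i, p i ∈ a i ∧ inner ℝ u (p i) = t) ∧ τ = orderType u p) :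
    S.card ≤ 1 + (2 * (3 * (K * K * n)) + 1) * (K * (K * 6)) := by
  classical
  have hc0 : ∀ i, c0 i ∈ a i := fun i => hb i (mem_closedBall_self zero_le_one)
  have hne : ∀ i, (a i).Nonempty := fun i => ⟨c0 i, hc0 i⟩
  obtain ⟨f, hf⟩ := exists_good hc hv hne hL
  rcases S.eq_empty_or_nonempty with rfl | hSne
  · simp
  choose! U T P hU hUn hP hτ using hS
  obtain ⟨⟨τ1, τ2⟩, hm, hmax⟩ := (S ×ˢ S).exists_max_image (fun z => ‖U z.1 - U z.2‖)
    (hSne.product hSne)
  obtain ⟨m1, m2⟩ := Finset.mem_product.1 hm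
  simp only at m1 m2 hmax
  set α := ‖U τ1 - U τ2‖ with hα
  have hd : ∀ x ∈ S, ∀ y ∈ S, ‖U x - U y‖ ≤ α := fun x hx y hy =>
    hmax (x, y) (Finset.mem_product.2 ⟨hx, hy⟩)
  have R0 : 0 ≤ R := by
    have := hR ⟨0, by omega⟩ _ (hc0 _) _ (hc0 _)
    simpa using this
  set Sm : Finset (Fin n) := Finset.univ.filter fun i =>
    |inner ℝ (U τ1) (c0 i) - T τ1 - (inner ℝ (U τ2) (c0 i) - T τ2)| < 5 * (α * R) with hSm
  have cSm : Sm.card ≤ K := by
    rcases Sm.eq_empty_or_nonempty with e | ⟨i0, hi0⟩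
    · simp [e]
    have hα0 : 0 < α := by
      rcases eq_or_lt_of_le (show 0 ≤ α from norm_nonneg _) with e | e
      · have := (Finset.mem_filter.1 hi0).2
        rw [← e] at this
        have := abs_nonneg (inner ℝ (U τ1) (c0 i0) - T τ1 - (inner ℝ (U τ2) (c0 i0) - T τ2))
        linarith
      · exact e
    refine le_trans (tube hL c0 hb c (u := U τ1) (w := α⁻¹ • (U τ1 - U τ2)) (hU τ1 m1) ?_
      (hUn τ1 m1) ?_ (t := T τ1) (τ := α⁻¹ * (T τ1 - T τ2)) (N := N) Sm ?_) hK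
    · simp [hU τ1 m1, hU τ2 m2]
    · rw [norm_smul, ← hα, norm_inv, Real.norm_of_nonneg hα0.le, inv_mul_cancel₀ hα0.ne']
    · intro i hi
      have h1 := (Finset.mem_filter.1 hi).2
      constructor
      · rw [real_inner_smul_left, inner_sub_left]
        have e : 4 * (α⁻¹ * (inner ℝ (U τ1) (c0 i) - inner ℝ (U τ2) (c0 i)) - α⁻¹ * (T τ1 - T τ2))
            = 4 * α⁻¹ * (inner ℝ (U τ1) (c0 i) - T τ1 - (inner ℝ (U τ2) (c0 i) - T τ2)) := by ring
        rw [e, abs_mul, abs_of_pos (by positivity : 0 < 4 * α⁻¹)]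
        have h2 := mul_le_mul_of_nonneg_left h1.le (by positivity : 0 ≤ 4 * α⁻¹)
        have e2 : 4 * α⁻¹ * (5 * (α * R)) = 20 * R := by field_simp; ring
        linarith
      · have h2 := abs_le.1 (inner_le (hUn τ1 m1) (hR i _ (hc0 i) _ (hP τ1 m1 i).1))
        rw [inner_sub_right, (hP τ1 m1 i).2] at h2
        rw [abs_le]
        constructor <;> linarith [h2.1, h2.2]
  set ub : E3 := (1 / 2 : ℝ) • (U τ1 + U τ2) with hub
  have g0 : ∀ τ, slide (U τ) (U τ1) (U τ2) 0 = U τ := fun τ => by simp [slide]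
  have g1 : ∀ τ, slide (U τ) (U τ1) (U τ2) 1 = ub := fun τ => by simp [slide, hub]
  have gc : ∀ τ, Continuous (slide (U τ) (U τ1) (U τ2)) := fun τ => by unfold slide; fun_prop
  have gx : ∀ τ ∈ S, ∀ s, slide (U τ) (U τ1) (U τ2) s c = 1 := fun τ h s =>
    slide_apply (hU τ h) (hU τ1 m1) (hU τ2 m2) s
  have big : ∀ τ ∈ S, ∀ s ∈ Set.Icc (0 : ℝ) 1, ∀ l m, ¬ (l ∈ Sm ∧ m ∈ Sm) →
      Ov (slide (U τ) (U τ1) (U τ2) s) (a l) (a m) := by
    intro τ h s hs l m hlm
    refine ov_of_big hR (hP τ h) (hP τ1 m1) (hP τ2 m2) hc0 (hd _ m1 _ h) (hd _ m2 _ h) le_rfl hs ?_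
    by_contra hcon
    rw [not_or, not_le, not_le] at hcon
    exact hlm ⟨Finset.mem_filter.2 ⟨Finset.mem_univ _, hcon.1⟩,
      Finset.mem_filter.2 ⟨Finset.mem_univ _, hcon.2⟩⟩
  set F : Finset (Fin n × Fin n × Fin n) := (Sm ×ˢ Sm ×ˢ Finset.univ) ∪
    ((Finset.univ ×ˢ Sm ×ˢ Sm) ∪ (Sm ×ˢ Finset.univ ×ˢ Sm)) with hF
  have mF : ∀ i j k, (i, j, k) ∈ F ↔
      (i ∈ Sm ∧ j ∈ Sm) ∨ (j ∈ Sm ∧ k ∈ Sm) ∨ (i ∈ Sm ∧ k ∈ Sm) := by
    intro i j k
    simp only [hF, Finset.mem_union, Finset.mem_product, Finset.mem_univ, and_true, true_and]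
  have cF : F.card ≤ 3 * (K * K * n) := by
    have k1 := Finset.card_union_le (Sm ×ˢ Sm ×ˢ (Finset.univ : Finset (Fin n)))
      (((Finset.univ : Finset (Fin n)) ×ˢ Sm ×ˢ Sm) ∪ (Sm ×ˢ Finset.univ ×ˢ Sm))
    have k2 := Finset.card_union_le ((Finset.univ : Finset (Fin n)) ×ˢ Sm ×ˢ Sm)
      (Sm ×ˢ (Finset.univ : Finset (Fin n)) ×ˢ Sm)
    simp only [Finset.card_product, Finset.card_univ, Fintype.card_fin] at k1 k2
    have k3 : Sm.card * Sm.card * n ≤ K * K * n :=
      Nat.mul_le_mul_right _ (Nat.mul_le_mul cSm cSm)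
    have e1 : Sm.card * (Sm.card * n) = Sm.card * Sm.card * n := by ring
    have e2 : n * (Sm.card * Sm.card) = Sm.card * Sm.card * n := by ring
    have e3 : Sm.card * (n * Sm.card) = Sm.card * Sm.card * n := by ring
    rw [← hF] at k1
    omega
  have factA : ∀ τ ∈ S, ∀ i j k, i ≠ j → i ≠ k → j ≠ k → (i, j, k) ∉ F →
      (Pos f (U τ) i j k ↔ Pos f ub i j k) := by
    intro τ h i j k hij hik hjk hnF
    rw [← g0 τ, ← g1 τ]
    refine seg hc hv hne hf hij hik hjk (gc τ) (fun s => ne_zero_of_apply (gx τ h s)) zero_le_one ?_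
    intro s hs l hl m hm
    by_cases hlm : l = m
    · subst hlm
      exact ov_self _ (hne l)
    refine big τ h s hs l m fun hh => hnF ?_
    rw [mF]
    simp only [Finset.mem_insert, Finset.mem_singleton] at hl hm
    rcases hl with rfl | rfl | rfl <;> rcases hm with rfl | rfl | rfl <;> tauto
  have factB : ∀ τ ∈ S,
      (∀ i j k, i ≠ j → i ≠ k → j ≠ k → (Pos f (U τ) i j k ↔ Pos f ub i j k)) ∨
      ∃ (x : E3) (b : Fin n × Fin n × Fin 3 × ℝ) (d : E3), x c = 1 ∧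
        (∀ i j k, i ≠ j → i ≠ k → j ≠ k → (Pos f (U τ) i j k ↔ Pos f x i j k)) ∧
        b ∈ Sm ×ˢ Sm ×ˢ (Finset.univ : Finset (Fin 3)) ×ˢ ({1, -1} : Finset ℝ) ∧ b.2.2.1 ≠ c ∧
        (∀ p ∈ a b.1, ∀ q ∈ a b.2.1, inner ℝ x q ≤ inner ℝ x p) ∧
        (∃ p ∈ a b.1, ∃ q ∈ a b.2.1, d = p - q) ∧ inner ℝ x d = 0 ∧ 0 < b.2.2.2 * d b.2.2.1 := by
    intro τ h
    have all : ∀ s1 ∈ Set.Icc (0 : ℝ) 1, (∀ s ∈ Set.Icc 0 s1, ∀ k ∈ Sm, ∀ j ∈ Sm,
        Ov (slide (U τ) (U τ1) (U τ2) s) (a k) (a j)) → ∀ i j k, i ≠ j → i ≠ k → j ≠ k →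
        (Pos f (U τ) i j k ↔ Pos f (slide (U τ) (U τ1) (U τ2) s1) i j k) := by
      intro s1 hs1 hov i j k hij hik hjk
      conv_lhs => rw [← g0 τ]
      refine seg hc hv hne hf hij hik hjk (gc τ) (fun s => ne_zero_of_apply (gx τ h s)) hs1.1 ?_
      intro s hs l _ m _
      by_cases hlm : l ∈ Sm ∧ m ∈ Sm
      · exact hov s hs l hlm.1 m hlm.2
      · exact big τ h s ⟨hs.1, hs.2.trans hs1.2⟩ l m hlm
    rcases first_tight hc hne Sm (gc τ) (fun k _ j _ => by
      rw [g0]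
      exact ⟨_, (hP τ h k).1, _, (hP τ h j).1, by rw [(hP τ h k).2, (hP τ h j).2]⟩) with h1 | h1
    · left
      rw [← g1 τ]
      exact all 1 ⟨zero_le_one, le_rfl⟩ h1
    · right
      obtain ⟨s1, hs1, hov, k, hk, j, hj, hkj, hst⟩ := h1
      have wk : ∀ p ∈ a k, ∀ q ∈ a j, inner ℝ (slide (U τ) (U τ1) (U τ2) s1) q ≤
          inner ℝ (slide (U τ) (U τ1) (U τ2) s1) p := by
        intro p hp q hq
        by_contra hcon
        exact hst ⟨p, hp, q, hq, not_le.1 hcon⟩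
      obtain ⟨p, hp, q, hq, hpq⟩ := hov s1 ⟨hs1.1, le_rfl⟩ k hk j hj
      obtain ⟨l, hkl, hjl⟩ := third hn k j
      have d0 : inner ℝ (slide (U τ) (U τ1) (U τ2) s1) (p - q) = 0 := by
        rw [inner_sub_right]
        linarith [wk p hp q hq]
      obtain ⟨e, ε, he, hε, hpos⟩ := exists_coord (gx τ h s1)
        (sub_ne_zero.2 (hL.ne hne hkj hkl hjl hp hq)) d0
      refine ⟨_, (k, j, e, ε), p - q, gx τ h s1, all s1 hs1 hov, ?_, he, wk,
        ⟨p, hp, q, hq, rfl⟩, d0, hpos⟩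
      simp only [Finset.mem_product, Finset.mem_univ, Finset.mem_insert, Finset.mem_singleton,
        true_and]
      exact ⟨hk, hj, hε⟩
  have ext : ∀ x ∈ S, ∀ y ∈ S,
      (∀ i j k, i ≠ j → i ≠ k → j ≠ k → (Pos f (U x) i j k ↔ Pos f (U y) i j k)) → x = y := by
    intro x hx y hy h
    rw [hτ x hx, hτ y hy]
    exact type_ext hf (ne_zero_of_apply (hU x hx)) (ne_zero_of_apply (hU y hy)) (hP x hx)
      (hP y hy) h
  set W : (Fin n → Fin n → Fin n → SignType) → Prop := fun τ =>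
    ∀ i j k, i ≠ j → i ≠ k → j ≠ k → (Pos f (U τ) i j k ↔ Pos f ub i j k) with hW
  have c1 : (S.filter W).card ≤ 1 := by
    rw [Finset.card_le_one]
    intro x hx y hy
    obtain ⟨hx1, hx2⟩ := Finset.mem_filter.1 hx
    obtain ⟨hy1, hy2⟩ := Finset.mem_filter.1 hy
    exact ext x hx1 y hy1 fun i j k h1 h2 h3 => (hx2 i j k h1 h2 h3).trans (hy2 i j k h1 h2 h3).symm
  have hB := fun τ (h : τ ∈ S.filter fun τ => ¬ W τ) =>
    (factB τ (Finset.mem_filter.1 h).1).resolve_left (Finset.mem_filter.1 h).2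
  have : Nonempty (Fin n) := ⟨⟨0, by omega⟩⟩
  choose! X B D x1 x2 x3 x4 x5 x6 x7 x8 using hB
  have c2 := Finset.card_le_mul_card_image_of_maps_to (f := B) (s := S.filter fun τ => ¬ W τ)
    (t := Sm ×ˢ Sm ×ˢ (Finset.univ : Finset (Fin 3)) ×ˢ ({1, -1} : Finset ℝ)) x3
    (2 * F.card + 1) (by
      intro b hb
      have hε : b.2.2.2 * b.2.2.2 = 1 := by
        simp only [Finset.mem_product, Finset.mem_univ, Finset.mem_insert, Finset.mem_singleton,
          true_and] at hb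
        rcases hb.2.2 with e | e <;> rw [e] <;> norm_num
      by_cases hec : b.2.2.1 = c
      · have : ((S.filter fun τ => ¬ W τ).filter fun τ => B τ = b) = ∅ := by
          rw [Finset.filter_eq_empty_iff]
          intro τ h e
          exact x4 τ h (e ▸ hec)
        rw [this]
        simp
      obtain ⟨e', h1, h3⟩ := fin3_b b.2.2.1 c
      refine count_patterns _ F (fun τ => X τ e')
        (fun m τ => 0 < inner ℝ (f m.1 m.2.1 m.2.2) (X τ)) ?_ ?_
      · intro m _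
        have key : ∀ x ∈ ((S.filter fun τ => ¬ W τ).filter fun τ => B τ = b),
            ∀ y ∈ ((S.filter fun τ => ¬ W τ).filter fun τ => B τ = b), 0 ≤ inner ℝ (X x) (D y) := by
          intro x hx y hy
          obtain ⟨hx1, hx2⟩ := Finset.mem_filter.1 hx
          obtain ⟨hy1, hy2⟩ := Finset.mem_filter.1 hy
          obtain ⟨p, hp, q, hq, e⟩ := x6 y hy1
          rw [hy2, ← hx2] at hp hq
          rw [e, inner_sub_right]
          linarith [x5 x hx1 p hp q hq]
        have cv := fun x (hx : x ∈ ((S.filter fun τ => ¬ W τ).filter fun τ => B τ = b))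
            y (hy : y ∈ ((S.filter fun τ => ¬ W τ).filter fun τ => B τ = b))
            z (hz : z ∈ ((S.filter fun τ => ¬ W τ).filter fun τ => B τ = b))
            (k1 : X x e' ≤ X y e') (k2 : X y e' ≤ X z e') =>
          cvx (g := f m.1 m.2.1 m.2.2) h1 hec h3 hε (x1 x (Finset.mem_filter.1 hx).1)
            (x1 y (Finset.mem_filter.1 hy).1) (x1 z (Finset.mem_filter.1 hz).1)
            ((Finset.mem_filter.1 hy).2 ▸ x8 y (Finset.mem_filter.1 hy).1)
            (x7 y (Finset.mem_filter.1 hy).1) (key x hx y hy) (key z hz y hy) k1 k2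
        rcases le_total (b.2.2.2 * f m.1 m.2.1 m.2.2 b.2.2.1) 0 with hg | hg
        · exact Or.inl fun x hx y hy z hz k1 k2 => (cv x hx y hy z hz k1 k2).1 hg
        · exact Or.inr fun x hx y hy z hz k1 k2 => (cv x hx y hy z hz k1 k2).2 hg
      · intro x hx y hy h
        have hx1 := (Finset.mem_filter.1 hx).1
        have hy1 := (Finset.mem_filter.1 hy).1
        have hx0 := (Finset.mem_filter.1 hx1).1
        have hy0 := (Finset.mem_filter.1 hy1).1
        refine ext x hx0 y hy0 fun i j k hij hik hjk => ?_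
        by_cases hin : (i, j, k) ∈ F
        · rw [x2 x hx1 i j k hij hik hjk, x2 y hy1 i j k hij hik hjk]
          have r1 := h _ hin
          have r2 := h (j, k, i) (by rw [mF] at hin ⊢; tauto)
          have r3 := h (k, i, j) (by rw [mF] at hin ⊢; tauto)
          unfold Pos
          simp only at r1 r2 r3
          rw [r1, r2, r3]
        · exact (factA x hx0 i j k hij hik hjk hin).trans (factA y hy0 i j k hij hik hjk hin).symm)
  have c3 : (Sm ×ˢ Sm ×ˢ (Finset.univ : Finset (Fin 3)) ×ˢ ({1, -1} : Finset ℝ)).card ≤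
      K * (K * 6) := by
    simp only [Finset.card_product, Finset.card_univ, Fintype.card_fin]
    have : ({1, -1} : Finset ℝ).card ≤ 2 := Finset.card_le_two
    exact Nat.mul_le_mul cSm (Nat.mul_le_mul cSm (by omega))
  have c4 := Finset.card_filter_add_card_filter_not (s := S) W
  have c5 : (2 * F.card + 1) *
      (Sm ×ˢ Sm ×ˢ (Finset.univ : Finset (Fin 3)) ×ˢ ({1, -1} : Finset ℝ)).card ≤
      (2 * (3 * (K * K * n)) + 1) * (K * (K * 6)) := Nat.mul_le_mul (by omega) c3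
  omega

lemma orderType_smul {n : ℕ} (u : E3) (p : Fin n → E3) {r : ℝ} (hr : 0 < r) :
    orderType (r • u) p = orderType u p := by
  funext i j k
  rw [orderType_eq, orderType_eq]
  have e : det3 (p j - p i) (p k - p i) (r • u) = r * det3 (p j - p i) (p k - p i) u := by
    simp [det3]
    ring
  rw [e, sign_mul, sign_pos hr, one_mul]

lemma orderType_neg {n : ℕ} (u : E3) (p : Fin n → E3) :
    orderType (-u) p = -orderType u p := by
  funext i j k
  simp only [Pi.neg_apply]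
  rw [orderType_eq, orderType_eq]
  have e : det3 (p j - p i) (p k - p i) (-u) = -det3 (p j - p i) (p k - p i) u := by
    simp [det3]
    ring
  rw [e, Left.sign_neg]

lemma orderType_small {n : ℕ} (hn : n < 3) (u : E3) (p : Fin n → E3) :
    orderType u p = fun _ _ _ => 0 := by
  funext i j k
  rw [orderType_eq]
  have z3 : ∀ x y : E3, det3 x x y = 0 := fun x y => by simp only [det3]; ring
  have : i = j ∨ i = k ∨ j = k := by
    have := i.2
    have := j.2
    have := k.2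
    simp only [Fin.ext_iff]
    omega
  rcases this with rfl | rfl | rfl
  · simp [det3]
  · simp [det3]
  · rw [z3]
    simp

theorem upper (ρ : ℝ) : ∃ C : ℕ, ∀ n : ℕ, 1 ≤ n → ∀ a : Fin n → Set E3,
    (∀ i, IsCompact (a i) ∧ Convex ℝ (a i) ∧ Stubby ρ (a i)) → Separated a →
      (geomPerms a).ncard ≤ C * n := by
  classical
  obtain ⟨N, hN⟩ := exists_nat_ge (20 * (2 * ρ))
  set K := 2 * (2 * N + 1) ^ 2 with hK
  refine ⟨3 * (1 + (2 * (3 * (K * K)) + 1) * (K * (K * 6))), fun n hn a ha hs => ?_⟩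
  set M := 1 + (2 * (3 * (K * K)) + 1) * (K * (K * 6)) with hM
  have M1 : 1 ≤ M := by omega
  let S : Fin 3 → Finset (Fin n → Fin n → Fin n → SignType) := fun c =>
    Finset.univ.filter fun τ => ∃ (u : E3) (t : ℝ) (p : Fin n → E3), u c = 1 ∧ ‖u‖ ≤ 2 ∧
      (∀ i, p i ∈ a i ∧ inner ℝ u (p i) = t) ∧ τ = orderType u p
  have cS : ∀ c, (S c).card ≤ M * n := by
    intro c
    rcases lt_or_ge n 3 with h3 | h3
    · have : (S c).card ≤ 1 := by
        rw [Finset.card_le_one]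
        intro x hx y hy
        obtain ⟨u, t, p, -, -, -, rfl⟩ := (Finset.mem_filter.1 hx).2
        obtain ⟨u', t', p', -, -, -, rfl⟩ := (Finset.mem_filter.1 hy).2
        rw [orderType_small h3, orderType_small h3]
      exact this.trans (Nat.mul_le_mul M1 hn)
    · choose c0 hc0 using fun i => (ha i).2.2.1
      have hR : ∀ i, ∀ p ∈ a i, ∀ q ∈ a i, ‖p - q‖ ≤ 2 * ρ := by
        intro i p hp q hq
        obtain ⟨z, hz⟩ := (ha i).2.2.2
        have h1 := mem_closedBall.1 (hz hp)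
        have h2 := mem_closedBall.1 (hz hq)
        rw [← dist_eq_norm]
        linarith [dist_triangle_right p q z]
      refine (chart h3 (fun i => (ha i).1) (fun i => (ha i).2.1) c0 hc0 hR (noLine_of_sep hs) c N K
        hN le_rfl (S c) fun τ h => (Finset.mem_filter.1 h).2).trans ?_
      have e : M * n = n + (2 * (3 * (K * K * n)) + n) * (K * (K * 6)) := by rw [hM]; ring
      rw [e]
      exact Nat.add_le_add hn (Nat.mul_le_mul_right _ (by omega))
  have sub : geomPerms a ⊆ ((Finset.univ.biUnion fun c => (S c).image fun τ => Sym2.mk τ (-τ) :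
      Finset (Sym2 (Fin n → Fin n → Fin n → SignType))) : Set _) := by
    rintro _ ⟨u, t, p, hu, hp, rfl⟩
    obtain ⟨c, -, hmax⟩ := (Finset.univ : Finset (Fin 3)).exists_max_image (fun i => |u i|)
      Finset.univ_nonempty
    have hc : u c ≠ 0 := by
      intro h
      apply hu
      ext i
      have := hmax i (Finset.mem_univ i)
      rw [h, abs_zero] at this
      simpa using this
    have hb : ∀ i, ((u c)⁻¹ * u i) ^ 2 ≤ 1 := by
      intro i
      have := hmax i (Finset.mem_univ i)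
      rw [sq_le_one_iff_abs_le_one, abs_mul, abs_inv, inv_mul_le_iff₀ (abs_pos.2 hc), mul_one]
      exact this
    simp only [Finset.coe_biUnion, Finset.coe_univ, Set.mem_univ, Set.iUnion_true,
      Finset.coe_image, Set.mem_iUnion, Set.mem_image, Finset.mem_coe]
    refine ⟨c, orderType ((u c)⁻¹ • u) p, Finset.mem_filter.2 ⟨Finset.mem_univ _, (u c)⁻¹ • u,
      (u c)⁻¹ * t, p, ?_, ?_, fun i => ⟨(hp i).1, ?_⟩, rfl⟩, ?_⟩
    · simp [hc]
    · refine (le_abs_self _).trans (abs_le_of_sq_le_sq ?_ (by norm_num : (0 : ℝ) ≤ 2))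
      rw [← real_inner_self_eq_norm_sq, inner_eq]
      simp only [PiLp.smul_apply, smul_eq_mul]
      linarith [hb 0, hb 1, hb 2]
    · rw [real_inner_smul_left, (hp i).2]
    · rcases lt_or_gt_of_ne hc with h | h
      · have e : (u c)⁻¹ • u = (-(u c)⁻¹) • (-u) := by simp
        rw [e, orderType_smul _ _ (neg_pos.2 (inv_lt_zero.2 h)), orderType_neg, neg_neg,
          Sym2.eq_swap]
      · rw [orderType_smul _ _ (inv_pos.2 h), orderType_neg]
  refine (Set.ncard_le_ncard sub (Finset.finite_toSet _)).trans ?_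
  rw [Set.ncard_coe_finset]
  refine Finset.card_biUnion_le.trans ?_
  calc ∑ c : Fin 3, ((S c).image fun τ => Sym2.mk τ (-τ)).card ≤ ∑ _c : Fin 3, M * n :=
        Finset.sum_le_sum fun c _ => Finset.card_image_le.trans (cS c)
    _ = 3 * M * n := by simp; ring

end Pool.Agent.MP_2c58a9_co
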